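import Pool.Agent.W2helper31.TN.Bounded
import Mathlib.Algebra.Homology.BifunctorFlip
import Mathlib.Algebra.Homology.HomologySequenceLemmas
import Mathlib.Algebra.Homology.HomologicalComplexAbelian
import Mathlib.Algebra.Homology.HomotopyCategory.ShiftSequence
import Mathlib.Algebra.Homology.QuasiIso

/-! A biexact bifunctor, applied to bounded complexes, preserves quasi-isomorphisms. -/

namespace Pool.Agent.W2helper31.TN

open CategoryTheory Limits HomologicalComplex

universe v u

variable {C : Type u} [Category.{v} C] [Abelian C]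

/-- A bifunctor which is exact in each variable. -/
class BiExact (F : C ⥤ C ⥤ C) : Prop where
  left_lim : ∀ X, PreservesFiniteLimits (F.obj X)
  left_colim : ∀ X, PreservesFiniteColimits (F.obj X)
  right_lim : ∀ Y, PreservesFiniteLimits (F.flip.obj Y)
  right_colim : ∀ Y, PreservesFiniteColimits (F.flip.obj Y)

attribute [instance] BiExact.left_lim BiExact.left_colim BiExact.right_lim BiExact.right_colim

instance BiExact.flip (F : C ⥤ C ⥤ C) [BiExact F] : BiExact F.flip where
  left_lim X := BiExact.right_lim X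
  left_colim X := BiExact.right_colim X
  right_lim X := BiExact.left_lim (F := F) X
  right_colim X := BiExact.left_colim (F := F) X

variable (F : C ⥤ C ⥤ C) [F.Additive] [∀ X, (F.obj X).Additive]

omit [∀ X, (F.obj X).Additive] in
theorem isZero_F_left {X : C} (hX : IsZero X) (Y : C) : IsZero ((F.obj X).obj Y) :=
  (F.flip.obj Y).map_isZero hX

omit [F.Additive] in
theorem isZero_F_right (X : C) {Y : C} (hY : IsZero Y) : IsZero ((F.obj X).obj Y) :=
  (F.obj X).map_isZero hY

theorem hasMap_of_bounded (K L : CochainComplex C ℤ) (hK : bounded C K) :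
    HasMapBifunctor K L F (ComplexShape.up ℤ) := by
  classical
  intro j
  obtain ⟨a, b, hab⟩ := hK
  refine hasCoproduct_of_support _
    ((Finset.Icc a b).image (fun p => (⟨(p, j - p), by
      change p + (j - p) = j; omega⟩ :
        (ComplexShape.π (ComplexShape.up ℤ) (ComplexShape.up ℤ) (ComplexShape.up ℤ) ⁻¹' {j})))) ?_
  rintro ⟨⟨p, q⟩, h⟩ hpq
  have h' : p + q = j := h
  have hp : p < a ∨ b < p := by
    by_contra hc
    push Not at hc
    apply hpq
    rw [Finset.mem_image]
    refine ⟨p, Finset.mem_Icc.2 hc, ?_⟩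
    apply Subtype.ext
    ext
    · rfl
    · change j - p = q
      omega
  exact isZero_F_left F (hab p hp) _

/-- The fibre of the sum map over `j`. -/
abbrev Fib (j : ℤ) : Type := (ComplexShape.π (ComplexShape.up ℤ) (ComplexShape.up ℤ)
        (ComplexShape.up ℤ) ⁻¹' {j} : Set (ℤ × ℤ))

/-- The terms of the total complex in degree `j`. -/
abbrev termFun (K L : CochainComplex C ℤ) (j : ℤ) (x : Fib j) : C :=
  (F.obj (K.X x.1.1)).obj (L.X x.1.2)

instance hasCoproduct_termFun (K L : CochainComplex C ℤ)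
    [h : HasMapBifunctor K L F (ComplexShape.up ℤ)] (j : ℤ) : HasCoproduct (termFun F K L j) :=
  h j

/-- The component of the map between total complexes, as a map of coproducts. -/
theorem mapBifunctorMap_f_eq {K K' L L' : CochainComplex C ℤ} (f : K ⟶ K') (g : L ⟶ L')
    [HasMapBifunctor K L F (ComplexShape.up ℤ)] [HasMapBifunctor K' L' F (ComplexShape.up ℤ)]
    (j : ℤ) :
    (mapBifunctorMap f g F (ComplexShape.up ℤ)).f j =
      Limits.Sigma.map (f := termFun F K L j) (g := termFun F K' L' j)
        (fun x => (F.map (f.f x.1.1)).app (L.X x.1.2) ≫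
          (F.obj (K'.X x.1.1)).map (g.f x.1.2)) := by
  apply mapBifunctor.hom_ext
  intro p q h
  rw [ι_mapBifunctorMap]
  refine Eq.trans ?_ (Limits.Sigma.ι_map (f := termFun F K L j) (g := termFun F K' L' j)
    (fun x => (F.map (f.f x.1.1)).app (L.X x.1.2) ≫
          (F.obj (K'.X x.1.1)).map (g.f x.1.2)) ⟨(p, q), h⟩).symm
  exact (Category.assoc _ _ _).symm

theorem mapBifunctorMap_comp {K K' K'' L L' L'' : CochainComplex C ℤ} (f : K ⟶ K')
    (f' : K' ⟶ K'') (g : L ⟶ L') (g' : L' ⟶ L'') [HasMapBifunctor K L F (ComplexShape.up ℤ)]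
    [HasMapBifunctor K' L' F (ComplexShape.up ℤ)] [HasMapBifunctor K'' L'' F (ComplexShape.up ℤ)] :
    mapBifunctorMap (f ≫ f') (g ≫ g') F (ComplexShape.up ℤ) =
      mapBifunctorMap f g F _ ≫ mapBifunctorMap f' g' F _ := by
  refine HomologicalComplex.hom_ext _ _ (fun j => ?_)
  apply mapBifunctor.hom_ext
  intro p q h
  rw [ι_mapBifunctorMap]
  simp

theorem mapBifunctorMap_zero_left {K K' L L' : CochainComplex C ℤ} (g : L ⟶ L')
    [HasMapBifunctor K L F (ComplexShape.up ℤ)] [HasMapBifunctor K' L' F (ComplexShape.up ℤ)] :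
    mapBifunctorMap (0 : K ⟶ K') g F (ComplexShape.up ℤ) = 0 := by
  refine HomologicalComplex.hom_ext _ _ (fun j => ?_)
  apply mapBifunctor.hom_ext
  intro p q h
  rw [ι_mapBifunctorMap]
  simp

variable [BiExact F]

/-- Applying a biexact bifunctor to a short exact sequence of bounded complexes gives a short
exact sequence. -/
theorem shortExact_mapBifunctor {K₁ K₂ K₃ : CochainComplex C ℤ} (f : K₁ ⟶ K₂) (g : K₂ ⟶ K₃)
    (w : f ≫ g = 0) (hex : (ShortComplex.mk f g w).ShortExact) (hK : bounded C K₁)
    (L : CochainComplex C ℤ)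
    [HasMapBifunctor K₁ L F (ComplexShape.up ℤ)] [HasMapBifunctor K₂ L F (ComplexShape.up ℤ)]
    [HasMapBifunctor K₃ L F (ComplexShape.up ℤ)]
    (w' : mapBifunctorMap f (𝟙 L) F (ComplexShape.up ℤ) ≫
      mapBifunctorMap g (𝟙 L) F (ComplexShape.up ℤ) = 0) :
    (ShortComplex.mk (mapBifunctorMap f (𝟙 L) F (ComplexShape.up ℤ))
      (mapBifunctorMap g (𝟙 L) F (ComplexShape.up ℤ)) w').ShortExact := by
  classical
  apply HomologicalComplex.shortExact_of_degreewise_shortExact
  intro j
  obtain ⟨a, b, hab⟩ := hK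
  have hpt : ∀ p, (ShortComplex.mk (f.f p) (g.f p)
      (by rw [← comp_f, w, zero_f])).ShortExact := fun p =>
    hex.map_of_exact (HomologicalComplex.eval C (ComplexShape.up ℤ) p)
  have hw : ∀ x : Fib j, (F.map (f.f x.1.1)).app (L.X x.1.2) ≫
      (F.map (g.f x.1.1)).app (L.X x.1.2) = 0 := fun x => by
    rw [← NatTrans.comp_app, ← F.map_comp, ← comp_f, w, zero_f, Functor.map_zero]
    rfl
  have hx : ∀ x : Fib j, (ShortComplex.mk ((F.map (f.f x.1.1)).app (L.X x.1.2))
      ((F.map (g.f x.1.1)).app (L.X x.1.2)) (hw x)).ShortExact := fun x =>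
    (hpt x.1.1).map_of_exact (F.flip.obj (L.X x.1.2))
  have key := shortExact_sigma (termFun F K₁ L j) (termFun F K₂ L j) (termFun F K₃ L j)
    (fun x => (F.map (f.f x.1.1)).app (L.X x.1.2)) (fun x => (F.map (g.f x.1.1)).app (L.X x.1.2))
    hw ((Finset.Icc a b).image (fun p => (⟨(p, j - p), by
      change p + (j - p) = j; omega⟩ : Fib j))) (by
      rintro ⟨⟨p, q⟩, h⟩ hpq
      have h' : p + q = j := h
      have hp : p < a ∨ b < p := by
        by_contra hc
        push Not at hc
        apply hpq
        rw [Finset.mem_image]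
        refine ⟨p, Finset.mem_Icc.2 hc, ?_⟩
        apply Subtype.ext
        ext
        · rfl
        · change j - p = q
          omega
      exact isZero_F_left F (hab p hp) _) hx
  have e1 : (mapBifunctorMap f (𝟙 L) F (ComplexShape.up ℤ)).f j =
      Limits.Sigma.map (f := termFun F K₁ L j) (g := termFun F K₂ L j)
        (fun x => (F.map (f.f x.1.1)).app (L.X x.1.2)) := by
    rw [mapBifunctorMap_f_eq]
    congr 1
    funext x
    simp
  have e2 : (mapBifunctorMap g (𝟙 L) F (ComplexShape.up ℤ)).f j =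
      Limits.Sigma.map (f := termFun F K₂ L j) (g := termFun F K₃ L j)
        (fun x => (F.map (g.f x.1.1)).app (L.X x.1.2)) := by
    rw [mapBifunctorMap_f_eq]
    congr 1
    funext x
    simp
  refine ShortComplex.shortExact_of_iso ?_ key
  refine ShortComplex.isoMk (Iso.refl (∐ termFun F K₁ L j)) (Iso.refl (∐ termFun F K₂ L j))
    (Iso.refl (∐ termFun F K₃ L j)) ?_ ?_
  · refine (Category.id_comp _).trans (Eq.trans ?_ (Category.comp_id _).symm)
    exact e1
  · refine (Category.id_comp _).trans (Eq.trans ?_ (Category.comp_id _).symm)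
    exact e2

end Pool.Agent.W2helper31.TN
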