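import Pool.Agent.W2helper31.TN.Coprod
import Mathlib.Algebra.Homology.Monoidal
import Mathlib.Algebra.Homology.Embedding.CochainComplex
import Mathlib.Algebra.Homology.CochainComplexPlus
import Mathlib.CategoryTheory.Monoidal.Preadditive
import Mathlib.Order.Interval.Finset.Basic
import Mathlib.Data.Int.Interval

/-! Bounded cochain complexes and their tensor product. -/

namespace Pool.Agent.W2helper31.TN

open CategoryTheory Limits MonoidalCategory

universe v u

variable (C : Type u) [Category.{v} C]

/-- A cochain complex indexed by `ℤ` is bounded when it vanishes in all degrees below some `a` and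
above some `b`. -/
def bounded [HasZeroMorphisms C] (K : CochainComplex C ℤ) : Prop :=
  ∃ a b : ℤ, ∀ i : ℤ, (i < a ∨ b < i) → IsZero (K.X i)

/-- The bounded cochain complexes. -/
structure BC [HasZeroMorphisms C] where
  /-- the underlying complex -/
  obj : CochainComplex C ℤ
  property : bounded C obj

variable {C}

section BC

variable [HasZeroMorphisms C]

/-- The maps of bounded cochain complexes. -/
structure BC.Hom (K L : BC C) where
  /-- the underlying map of complexes -/
  hom : K.obj ⟶ L.obj

/-- The category of bounded cochain complexes. -/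
instance BC.category : Category (BC C) where
  Hom := BC.Hom
  id K := ⟨𝟙 _⟩
  comp f g := ⟨f.hom ≫ g.hom⟩

/-- A map of bounded complexes given by a map of complexes. -/
def BC.homMk {K L : BC C} (f : K.obj ⟶ L.obj) : K ⟶ L := ⟨f⟩

@[simp]
theorem BC.homMk_hom {K L : BC C} (f : K.obj ⟶ L.obj) : (BC.homMk f).hom = f := rfl

@[simp]
theorem BC.comp_hom {K L M : BC C} (f : K ⟶ L) (g : L ⟶ M) : (f ≫ g).hom = f.hom ≫ g.hom := rfl

@[simp]
theorem BC.id_hom (K : BC C) : (𝟙 K : K ⟶ K).hom = 𝟙 K.obj := rfl

theorem BC.hom_ext {K L : BC C} {f g : K ⟶ L} (h : f.hom = g.hom) : f = g := by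
  obtain ⟨f⟩ := f
  obtain ⟨g⟩ := g
  subst h
  rfl

/-- An isomorphism of bounded complexes given by an isomorphism of complexes. -/
def BC.isoMk {K L : BC C} (e : K.obj ≅ L.obj) : K ≅ L where
  hom := BC.homMk e.hom
  inv := BC.homMk e.inv
  hom_inv_id := BC.hom_ext e.hom_inv_id
  inv_hom_id := BC.hom_ext e.inv_hom_id

instance BC.hasZeroMorphisms : HasZeroMorphisms (BC C) where
  zero _ _ := ⟨BC.homMk 0⟩
  comp_zero _ _ := BC.hom_ext comp_zero
  zero_comp _ _ _ _ := BC.hom_ext zero_comp

@[simp]
theorem BC.zero_hom (K L : BC C) : (0 : K ⟶ L).hom = 0 := rfl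

end BC

variable [Abelian C] [MonoidalCategory C] [MonoidalPreadditive C]

theorem isZero_tensor_left {X : C} (hX : IsZero X) (Y : C) : IsZero (X ⊗ Y) :=
  (tensorRight Y).map_isZero hX

theorem isZero_tensor_right (X : C) {Y : C} (hY : IsZero Y) : IsZero (X ⊗ Y) :=
  (tensorLeft X).map_isZero hY

theorem hasTensor_of_bounded (K L : CochainComplex C ℤ) (hK : bounded C K) :
    HomologicalComplex.HasTensor K L := by
  classical
  intro j
  obtain ⟨a, b, hab⟩ := hK
  refine hasCoproduct_of_support _
    ((Finset.Icc a b).image (fun p => (⟨(p, j - p), by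
      change p + (j - p) = j; omega⟩ :
        (ComplexShape.π (ComplexShape.up ℤ) (ComplexShape.up ℤ) (ComplexShape.up ℤ) ⁻¹' {j})))) ?_
  rintro ⟨⟨p, q⟩, h⟩ hpq
  have h' : p + q = j := h
  have hp : p < a ∨ b < p := by
    by_contra hc
    push Not at hc
    apply hpq
    rw [Finset.mem_image]
    refine ⟨p, Finset.mem_Icc.2 hc, ?_⟩
    apply Subtype.ext
    ext
    · rfl
    · change j - p = q
      omega
  exact isZero_tensor_left (hab p hp) _

instance hasTensor_obj (K L : BC C) : HomologicalComplex.HasTensor K.obj L.obj :=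
  hasTensor_of_bounded _ _ K.property

theorem isZero_tensorObj_X (K L : CochainComplex C ℤ) [HomologicalComplex.HasTensor K L] (j : ℤ)
    (h : ∀ p q : ℤ, p + q = j → IsZero (K.X p) ∨ IsZero (L.X q)) :
    IsZero ((HomologicalComplex.tensorObj K L).X j) := by
  rw [IsZero.iff_id_eq_zero]
  apply HomologicalComplex.mapBifunctor.hom_ext
  intro p q hpq
  rcases h p q hpq with h | h
  · exact (isZero_tensor_left h _).eq_of_src _ _
  · exact (isZero_tensor_right _ h).eq_of_src _ _

/-- The tensor product of two bounded complexes. -/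
noncomputable def tens (K L : BC C) : BC C where
  obj := HomologicalComplex.tensorObj K.obj L.obj
  property := by
    obtain ⟨a, b, h⟩ := K.property
    obtain ⟨a', b', h'⟩ := L.property
    refine ⟨a + a', b + b', fun i hi => isZero_tensorObj_X _ _ _ fun p q hpq => ?_⟩
    by_cases h1 : p < a ∨ b < p
    · exact Or.inl (h p h1)
    · exact Or.inr (h' q (by omega))

/-- The tensor product of two maps of bounded complexes. -/
noncomputable def tensMap {K K' L L' : BC C} (f : K ⟶ K') (g : L ⟶ L') : tens K L ⟶ tens K' L' :=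
  BC.homMk (HomologicalComplex.tensorHom f.hom g.hom)

theorem ι_tensorHom {K K' L L' : CochainComplex C ℤ} (f : K ⟶ K') (g : L ⟶ L')
    [HomologicalComplex.HasTensor K L] [HomologicalComplex.HasTensor K' L'] (p q j : ℤ)
    (h : p + q = j) :
    HomologicalComplex.ιTensorObj K L p q j h ≫ (HomologicalComplex.tensorHom f g).f j =
      (f.f p ⊗ₘ g.f q) ≫ HomologicalComplex.ιTensorObj K' L' p q j h := by
  rw [HomologicalComplex.ι_mapBifunctorMap, tensorHom_def, Category.assoc]
  rfl

theorem tensorHom_id_id (K L : CochainComplex C ℤ) [HomologicalComplex.HasTensor K L] :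
    HomologicalComplex.tensorHom (𝟙 K) (𝟙 L) = 𝟙 _ := by
  refine HomologicalComplex.hom_ext _ _ (fun j => ?_)
  apply HomologicalComplex.mapBifunctor.hom_ext
  intro p q h
  refine (ι_tensorHom _ _ _ _ _ h).trans ?_
  simp

theorem tensorHom_comp' {K K' K'' L L' L'' : CochainComplex C ℤ} (f : K ⟶ K') (f' : K' ⟶ K'')
    (g : L ⟶ L') (g' : L' ⟶ L'') [HomologicalComplex.HasTensor K L]
    [HomologicalComplex.HasTensor K' L'] [HomologicalComplex.HasTensor K'' L''] :
    HomologicalComplex.tensorHom (f ≫ f') (g ≫ g') =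
      HomologicalComplex.tensorHom f g ≫ HomologicalComplex.tensorHom f' g' := by
  refine HomologicalComplex.hom_ext _ _ (fun j => ?_)
  apply HomologicalComplex.mapBifunctor.hom_ext
  intro p q h
  refine (ι_tensorHom _ _ _ _ _ h).trans ?_
  refine Eq.trans ?_ (Category.assoc _ _ _)
  refine Eq.trans ?_ (congrArg (fun t => t ≫ (HomologicalComplex.tensorHom f' g').f j)
    (ι_tensorHom f g _ _ _ h)).symm
  refine Eq.trans ?_ (Category.assoc _ _ _).symm
  refine Eq.trans ?_ (congrArg (fun t => (f.f p ⊗ₘ g.f q) ≫ t)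
    (ι_tensorHom f' g' _ _ _ h)).symm
  simp [MonoidalCategory.tensorHom_comp_tensorHom_assoc]

theorem tensMap_id (K L : BC C) : tensMap (𝟙 K) (𝟙 L) = 𝟙 _ := by
  apply BC.hom_ext
  exact tensorHom_id_id _ _

theorem tensMap_comp {K K' K'' L L' L'' : BC C} (f : K ⟶ K') (f' : K' ⟶ K'')
    (g : L ⟶ L') (g' : L' ⟶ L'') :
    tensMap (f ≫ f') (g ≫ g') = tensMap f g ≫ tensMap f' g' := by
  apply BC.hom_ext
  exact tensorHom_comp' _ _ _ _

variable (C) in
/-- The tensor product bifunctor on bounded complexes. -/
@[simps]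
noncomputable def tensBC : BC C ⥤ BC C ⥤ BC C where
  obj K :=
    { obj L := tens K L
      map g := tensMap (𝟙 K) g
      map_id L := tensMap_id K L
      map_comp g g' := by rw [← tensMap_comp, Category.comp_id] }
  map f :=
    { app L := tensMap f (𝟙 L)
      naturality L L' g := by
        dsimp only
        rw [← tensMap_comp, ← tensMap_comp]
        simp }
  map_id K := by
    refine NatTrans.ext (funext fun L => ?_)
    exact tensMap_id K L
  map_comp f f' := by
    refine NatTrans.ext (funext fun L => ?_)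
    dsimp only [NatTrans.comp_app]
    rw [← tensMap_comp, Category.comp_id]

end Pool.Agent.W2helper31.TN
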