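import Mathlib.CategoryTheory.Abelian.Basic
import Mathlib.CategoryTheory.Limits.Preserves.Shapes.Products
import Mathlib.Algebra.Homology.ShortComplex.ShortExact
import Mathlib.Algebra.BigOperators.Group.Finset.Basic

/-! Coproducts of families with finite support in a preadditive category, and their exactness. -/

namespace Pool.Agent.W2helper31.TN

open CategoryTheory Limits

section Existence

variable {C : Type*} [Category C] [HasZeroMorphisms C]

open Classical in
theorem hasCoproduct_of_support [HasFiniteCoproducts C] {ι : Type*} (F : ι → C) (S : Finset ι)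
    (hS : ∀ i, i ∉ S → IsZero (F i)) : HasCoproduct F := by
  let c : Cofan F := Cofan.mk (∐ (fun i : S => F i))
    (fun i => if h : i ∈ S then Sigma.ι (fun i : S => F i) ⟨i, h⟩ else 0)
  have hc : IsColimit c := Cofan.IsColimit.mk c
    (fun s => Sigma.desc (fun i : S => s.inj i))
    (fun s j => by
      by_cases h : j ∈ S
      · simp [c, h, Cofan.inj]
      · exact (hS j h).eq_of_src _ _)
    (fun s m hm => by
      refine Sigma.hom_ext (f := fun i : S => F i) (m : ∐ (fun i : S => F i) ⟶ s.pt) _ ?_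
      rintro ⟨i, hi⟩
      have := hm i
      simp only [c, hi, Cofan.inj, Cofan.mk_ι_app, dite_true] at this
      simpa [Cofan.inj] using this)
  exact HasColimit.mk ⟨c, hc⟩

end Existence

section Exact

variable {C : Type*} [Category C] [Abelian C] {ι : Type*}

open Classical in
/-- The projection of a coproduct onto one of its terms. -/
noncomputable def sigmaProj (F : ι → C) [HasCoproduct F] (i : ι) : ∐ F ⟶ F i :=
  Sigma.desc (fun j => if h : j = i then eqToHom (by rw [h]) else 0)

@[reassoc (attr := simp)]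
theorem sigmaι_proj (F : ι → C) [HasCoproduct F] (i : ι) :
    Sigma.ι F i ≫ sigmaProj F i = 𝟙 _ := by
  simp [sigmaProj]

@[reassoc]
theorem sigmaι_proj_ne (F : ι → C) [HasCoproduct F] {i j : ι} (h : j ≠ i) :
    Sigma.ι F j ≫ sigmaProj F i = 0 := by
  simp [sigmaProj, h]

theorem sum_proj_ι (F : ι → C) [HasCoproduct F] (S : Finset ι)
    (hS : ∀ i, i ∉ S → IsZero (F i)) :
    ∑ i ∈ S, sigmaProj F i ≫ Sigma.ι F i = 𝟙 (∐ F) := by
  classical
  apply Sigma.hom_ext
  intro j
  rw [Preadditive.comp_sum]
  by_cases hj : j ∈ S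
  · rw [Finset.sum_eq_single_of_mem j hj]
    · simp
    · intro i _ hij
      rw [sigmaι_proj_ne_assoc F hij.symm, zero_comp]
  · exact (hS j hj).eq_of_src _ _

@[reassoc]
theorem sigmaMap_proj (F G : ι → C) [HasCoproduct F] [HasCoproduct G] (f : ∀ i, F i ⟶ G i)
    (i : ι) : Limits.Sigma.map f ≫ sigmaProj G i = sigmaProj F i ≫ f i := by
  apply Sigma.hom_ext
  intro j
  by_cases h : j = i
  · subst h
    simp
  · rw [Limits.Sigma.ι_map_assoc, sigmaι_proj_ne G h, comp_zero, sigmaι_proj_ne_assoc F h, zero_comp]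

theorem mono_sigmaMap (F G : ι → C) [HasCoproduct F] [HasCoproduct G] (f : ∀ i, F i ⟶ G i)
    (S : Finset ι) (hS : ∀ i, i ∉ S → IsZero (F i)) [∀ i, Mono (f i)] : Mono (Limits.Sigma.map f) := by
  apply Preadditive.mono_of_cancel_zero
  intro T g hg
  rw [← Category.comp_id g, ← sum_proj_ι F S hS, Preadditive.comp_sum]
  apply Finset.sum_eq_zero
  intro i _
  have h1 : g ≫ sigmaProj F i = 0 := by
    rw [← cancel_mono (f i), Category.assoc, ← sigmaMap_proj F G f i, reassoc_of% hg]
    simp
  rw [reassoc_of% h1, zero_comp]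

omit [Abelian C] in
theorem epi_sigmaMap (F G : ι → C) [HasCoproduct F] [HasCoproduct G] (f : ∀ i, F i ⟶ G i)
    [∀ i, Epi (f i)] : Epi (Limits.Sigma.map f) := by
  constructor
  intro T g h hgh
  apply Sigma.hom_ext
  intro i
  have := Sigma.ι F i ≫= hgh
  rw [Limits.Sigma.ι_map_assoc, Limits.Sigma.ι_map_assoc] at this
  exact (cancel_epi (f i)).1 this

/-- Coproducts with finite support are exact. -/
theorem shortExact_sigma (F G H : ι → C) [HasCoproduct F] [HasCoproduct G] [HasCoproduct H]
    (f : ∀ i, F i ⟶ G i) (g : ∀ i, G i ⟶ H i) (w : ∀ i, f i ≫ g i = 0)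
    (S : Finset ι) (hS : ∀ i, i ∉ S → IsZero (F i))
    (hex : ∀ i, (ShortComplex.mk (f i) (g i) (w i)).ShortExact) :
    (ShortComplex.mk (Limits.Sigma.map f) (Limits.Sigma.map g)
      (by apply Sigma.hom_ext; intro i; simp [reassoc_of% (w i)])).ShortExact := by
  have hm : ∀ i, Mono (f i) := fun i => (hex i).mono_f
  have he : ∀ i, Epi (g i) := fun i => (hex i).epi_g
  have : Mono (Limits.Sigma.map f) := mono_sigmaMap F G f S hS
  have : Epi (Limits.Sigma.map g) := epi_sigmaMap G H g
  refine ShortComplex.ShortExact.mk' ?_ (by assumption) (by assumption)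
  refine ShortComplex.exact_of_g_is_cokernel _ ?_
  have key : ∀ {T : C} (k : ∐ G ⟶ T) (_ : Limits.Sigma.map f ≫ k = 0) (i : ι),
      f i ≫ Sigma.ι G i ≫ k = 0 := fun k hk i => by
    have := Sigma.ι F i ≫= hk
    simpa using this
  refine CokernelCofork.IsColimit.ofπ _ _
    (fun {T} k hk => Sigma.desc (fun i => (hex i).exact.desc (Sigma.ι G i ≫ k) (key k hk i)))
      ?_ ?_
  · intro T k hk
    apply Sigma.hom_ext
    intro i
    rw [Limits.Sigma.ι_map_assoc, Sigma.ι_desc]
    exact (hex i).exact.g_desc _ _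
  · intro T k hk m hm
    apply Sigma.hom_ext
    intro i
    rw [Sigma.ι_desc]
    rw [← cancel_epi (g i)]
    refine Eq.trans ?_ ((hex i).exact.g_desc _ _).symm
    have := Sigma.ι G i ≫= hm
    rw [Limits.Sigma.ι_map_assoc] at this
    exact this

end Exact

end Pool.Agent.W2helper31.TN
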