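import Pool.Agent.W2helper31.TN.Bounded
import Mathlib.CategoryTheory.Monoidal.Rigid.Basic
import Mathlib.CategoryTheory.Monoidal.Rigid.Braided
import Mathlib.CategoryTheory.Monoidal.Linear
import Mathlib.CategoryTheory.Adjunction.Limits
import Mathlib.CategoryTheory.Monoidal.Braided.Basic

/-! In a braided rigid abelian tensor category with `End(1) = k`, nonzero maps out of the unit are
monomorphisms. -/

namespace Pool.Agent.W2helper31.TN

open CategoryTheory Limits MonoidalCategory ExactPairing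

universe v u

variable {C : Type u} [Category.{v} C]

section Exactness

variable [MonoidalCategory C] [RigidCategory C]

instance preservesFiniteColimits_tensorLeft (X : C) : PreservesFiniteColimits (tensorLeft X) :=
  have := (tensorLeftAdjunction (ᘁX) X).leftAdjoint_preservesColimits
  inferInstance

instance preservesFiniteLimits_tensorLeft (X : C) : PreservesFiniteLimits (tensorLeft X) :=
  have := (tensorLeftAdjunction X (Xᘁ)).rightAdjoint_preservesLimits
  inferInstance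

instance preservesFiniteColimits_tensorRight (X : C) : PreservesFiniteColimits (tensorRight X) :=
  have := (tensorRightAdjunction X (Xᘁ)).leftAdjoint_preservesColimits
  inferInstance

instance preservesFiniteLimits_tensorRight (X : C) : PreservesFiniteLimits (tensorRight X) :=
  have := (tensorRightAdjunction (ᘁX) X).rightAdjoint_preservesLimits
  inferInstance

instance mono_whiskerLeft' (X : C) {Y Z : C} (f : Y ⟶ Z) [Mono f] : Mono (X ◁ f) :=
  inferInstanceAs (Mono ((tensorLeft X).map f))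

instance epi_whiskerLeft' (X : C) {Y Z : C} (f : Y ⟶ Z) [Epi f] : Epi (X ◁ f) :=
  inferInstanceAs (Epi ((tensorLeft X).map f))

instance mono_whiskerRight' (X : C) {Y Z : C} (f : Y ⟶ Z) [Mono f] : Mono (f ▷ X) :=
  inferInstanceAs (Mono ((tensorRight X).map f))

instance epi_whiskerRight' (X : C) {Y Z : C} (f : Y ⟶ Z) [Epi f] : Epi (f ▷ X) :=
  inferInstanceAs (Epi ((tensorRight X).map f))

end Exactness

section Abelian

variable [Abelian C] [MonoidalCategory C] [MonoidalPreadditive C] [RigidCategory C]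
  [BraidedCategory C]

/-- If `X ⊗ Y` vanishes then so does `X ⊗ Yᘁ`. -/
theorem isZero_tensor_dual {X Y : C} (h : IsZero (X ⊗ Y)) : IsZero (X ⊗ Yᘁ) := by
  have h1 : IsZero (X ⊗ ((Yᘁ ⊗ Y) ⊗ Yᘁ)) := by
    have e : X ⊗ ((Yᘁ ⊗ Y) ⊗ Yᘁ) ≅ (X ⊗ Y) ⊗ (Yᘁ ⊗ Yᘁ) :=
      whiskerLeftIso X (whiskerRightIso (β_ (Yᘁ) Y) (Yᘁ)) ≪≫
        whiskerLeftIso X (α_ _ _ _) ≪≫ (α_ _ _ _).symm
    exact (isZero_tensor_left h _).of_iso e
  rw [IsZero.iff_id_eq_zero]
  have h2 := ExactPairing.coevaluation_evaluation Y (Yᘁ)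
  have h3 : 𝟙 (X ⊗ Yᘁ) = (X ◁ ((ρ_ (Yᘁ)).inv ≫ (Yᘁ) ◁ η_ Y (Yᘁ) ≫ (α_ _ _ _).inv)) ≫
      (X ◁ (ε_ Y (Yᘁ) ▷ (Yᘁ) ≫ (λ_ (Yᘁ)).hom)) := by
    rw [← MonoidalCategory.whiskerLeft_comp, Category.assoc, Category.assoc, reassoc_of% h2]
    simp
  rw [h3, h1.eq_of_tgt (X ◁ ((ρ_ (Yᘁ)).inv ≫ (Yᘁ) ◁ η_ Y (Yᘁ) ≫ (α_ _ _ _).inv)) 0, zero_comp]

theorem isZero_of_tensor_self {X : C} (h : IsZero (X ⊗ X)) : IsZero X := by
  have h0 : IsZero (X ⊗ (Xᘁ ⊗ X)) := by
    have e : X ⊗ (Xᘁ ⊗ X) ≅ (X ⊗ Xᘁ) ⊗ X := (α_ _ _ _).symm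
    exact (isZero_tensor_left (isZero_tensor_dual h) _).of_iso e
  rw [IsZero.iff_id_eq_zero]
  have h2 := ExactPairing.evaluation_coevaluation X (Xᘁ)
  have h3 : 𝟙 X = ((λ_ X).inv ≫ η_ X (Xᘁ) ▷ X ≫ (α_ _ _ _).hom) ≫
      (X ◁ ε_ X (Xᘁ) ≫ (ρ_ X).hom) := by
    rw [Category.assoc, Category.assoc, reassoc_of% h2]
    simp
  rw [h3, h0.eq_of_tgt ((λ_ X).inv ≫ η_ X (Xᘁ) ▷ X ≫ (α_ _ _ _).hom) 0, zero_comp]

variable {U : C} (i : U ⟶ 𝟙_ C) [Mono i]

/-- The dual of `i : U ⟶ 𝟙_ C`. -/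
noncomputable def dmap : 𝟙_ C ⟶ Uᘁ := η_ U (Uᘁ : C) ≫ (i ▷ (Uᘁ : C)) ≫ (λ_ (Uᘁ : C)).hom

omit [Abelian C] [MonoidalPreadditive C] [BraidedCategory C] [Mono i] in
theorem dmap_ev : (dmap i ▷ U) ≫ ε_ U (Uᘁ : C) = (λ_ U).hom ≫ i := by
  have h := ExactPairing.evaluation_coevaluation U (Uᘁ)
  have h1 : (i ▷ (Uᘁ : C)) ▷ U ≫ (λ_ (Uᘁ : C)).hom ▷ U ≫ ε_ U (Uᘁ : C) =
      (α_ _ _ _).hom ≫ U ◁ ε_ U (Uᘁ : C) ≫ (ρ_ U).hom ≫ i := by
    have h2 : (λ_ (Uᘁ : C)).hom ▷ U = (α_ _ _ _).hom ≫ (λ_ ((Uᘁ : C) ⊗ U)).hom := by simp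
    rw [h2]
    simp only [Category.assoc]
    rw [MonoidalCategory.associator_naturality_left_assoc]
    congr 1
    rw [← MonoidalCategory.leftUnitor_naturality, ← MonoidalCategory.whisker_exchange_assoc]
    rw [← MonoidalCategory.rightUnitor_naturality]
    congr 2
    exact MonoidalCategory.unitors_equal
  unfold dmap
  rw [MonoidalCategory.comp_whiskerRight, MonoidalCategory.comp_whiskerRight, Category.assoc,
    Category.assoc, h1, reassoc_of% h]
  simp

instance epi_dmap : Epi (dmap i) := by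
  apply Preadditive.epi_of_cancel_zero
  intro T h hh
  have h1 : η_ U (Uᘁ : C) ≫ (U ◁ h) = 0 := by
    rw [← cancel_mono (i ▷ T), ← cancel_mono (λ_ T).hom]
    rw [zero_comp, zero_comp, Category.assoc, Category.assoc,
      MonoidalCategory.whisker_exchange_assoc, MonoidalCategory.leftUnitor_naturality]
    rw [← hh]
    simp [dmap]
  have h2 := ExactPairing.coevaluation_evaluation U (Uᘁ)
  have h3 : h = (ρ_ _).inv ≫ (Uᘁ : C) ◁ (η_ U (Uᘁ : C) ≫ (U ◁ h)) ≫ (α_ _ _ _).inv ≫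
      (ε_ U (Uᘁ : C) ▷ T) ≫ (λ_ T).hom := by
    rw [MonoidalCategory.whiskerLeft_comp, Category.assoc,
      MonoidalCategory.associator_inv_naturality_right_assoc,
      MonoidalCategory.whisker_exchange_assoc, reassoc_of% h2]
    simp
  rw [h3, h1]
  simp

omit [BraidedCategory C] in
theorem isZero_ker_dmap_tensor : IsZero (kernel (dmap i) ⊗ U) := by
  have hm : Mono (dmap i ▷ U) := by
    have : Mono ((dmap i ▷ U) ≫ ε_ U (Uᘁ : C)) := by
      rw [dmap_ev]
      infer_instance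
    exact mono_of_mono _ (ε_ U (Uᘁ : C))
  have h1 : kernel.ι (dmap i) ▷ U = 0 := by
    rw [← cancel_mono (dmap i ▷ U), ← MonoidalCategory.comp_whiskerRight, kernel.condition]
    simp
  exact IsZero.of_mono_eq_zero _ h1

theorem mono_comp_dmap : Mono (i ≫ dmap i) := by
  have hz : IsZero (kernel (i ≫ dmap i)) := by
    apply isZero_of_tensor_self
    let v := kernel.ι (i ≫ dmap i)
    let w : kernel (i ≫ dmap i) ⟶ kernel (dmap i) := kernel.lift _ (v ≫ i) (by
      rw [Category.assoc]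
      exact kernel.condition _)
    have hw : Mono w := by
      have : Mono (w ≫ kernel.ι (dmap i)) := by
        rw [kernel.lift_ι]
        infer_instance
      exact mono_of_mono _ (kernel.ι (dmap i))
    have hm : Mono ((w ▷ _) ≫ (kernel (dmap i) ◁ v)) := inferInstance
    exact (isZero_ker_dmap_tensor i).of_mono ((w ▷ _) ≫ (kernel (dmap i) ◁ v))
  exact Preadditive.mono_of_isZero_kernel _ hz

theorem epi_comp_dmap : Epi (i ≫ dmap i) := by
  let π := cokernel.π (i ≫ dmap i)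
  let e : 𝟙_ C ⟶ cokernel (i ≫ dmap i) := dmap i ≫ π
  have he : Epi e := inferInstance
  have hie : i ≫ e = 0 := by
    have := cokernel.condition (i ≫ dmap i)
    rwa [Category.assoc] at this
  have h1 : e ▷ U = 0 := by
    rw [← cancel_mono (cokernel (i ≫ dmap i) ◁ i), zero_comp, ← MonoidalCategory.whisker_exchange,
      ← cancel_mono (ρ_ _).hom, Category.assoc, MonoidalCategory.rightUnitor_naturality,
      ← MonoidalCategory.unitors_equal]
    rw [MonoidalCategory.leftUnitor_naturality_assoc, hie]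
    simp
  have h2 : IsZero (cokernel (i ≫ dmap i) ⊗ U) := IsZero.of_epi_eq_zero _ h1
  have h3 : IsZero (cokernel (i ≫ dmap i) ⊗ Uᘁ) := isZero_tensor_dual h2
  have h4 : IsZero (cokernel (i ≫ dmap i) ⊗ cokernel (i ≫ dmap i)) :=
    h3.of_epi (cokernel (i ≫ dmap i) ◁ π)
  exact Preadditive.epi_of_isZero_cokernel _ (isZero_of_tensor_self h4)

/-- A subobject of the unit is zero or everything, when `End(1) = k` is a field. -/
theorem isZero_or_isIso_of_mono (k : Type*) [Field k] [Linear k C]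
    (hk : Function.Bijective (fun c : k => c • 𝟙 (𝟙_ C))) : IsZero U ∨ IsIso i := by
  have hm : Mono (i ≫ dmap i) := mono_comp_dmap i
  have he : Epi (i ≫ dmap i) := epi_comp_dmap i
  have hiso : IsIso (i ≫ dmap i) := isIso_of_mono_of_epi _
  let e₀ : 𝟙_ C ⟶ 𝟙_ C := dmap i ≫ inv (i ≫ dmap i) ≫ i
  have h1 : i ≫ e₀ = i := by
    have := IsIso.hom_inv_id_assoc (i ≫ dmap i) i
    rw [Category.assoc] at this
    exact this
  have h2 : e₀ ≫ e₀ = e₀ := by
    change (dmap i ≫ inv (i ≫ dmap i) ≫ i) ≫ e₀ = e₀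
    rw [Category.assoc, Category.assoc, h1]
  obtain ⟨c, hc⟩ := hk.2 e₀
  have h3 : c * c = c := by
    apply hk.1
    change (c * c) • 𝟙 (𝟙_ C) = c • 𝟙 (𝟙_ C)
    rw [← hc] at h2
    simpa [smul_smul] using h2
  rcases eq_or_ne c 0 with h0 | h0
  · left
    have h4 : e₀ = 0 := by
      rw [← hc, h0]
      simp
    rw [h4, comp_zero] at h1
    exact IsZero.of_mono_eq_zero i h1.symm
  · right
    have h5 : c = 1 := by
      have := mul_left_cancel₀ h0 (h3.trans (mul_one c).symm)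
      exact this
    have h4 : e₀ = 𝟙 _ := by
      rw [← hc, h5]
      simp
    have h6 : Epi i := by
      have : Epi ((dmap i ≫ inv (i ≫ dmap i)) ≫ i) := by
        have h7 : (dmap i ≫ inv (i ≫ dmap i)) ≫ i = 𝟙 _ := by
          rw [Category.assoc]
          exact h4
        rw [h7]
        infer_instance
      exact epi_of_epi (dmap i ≫ inv (i ≫ dmap i)) i
    exact isIso_of_mono_of_epi i

omit i [Mono i] U in
theorem mono_of_ne_zero (k : Type*) [Field k] [Linear k C]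
    (hk : Function.Bijective (fun c : k => c • 𝟙 (𝟙_ C))) {M : C} (x : 𝟙_ C ⟶ M) (hx : x ≠ 0) :
    Mono x := by
  rcases isZero_or_isIso_of_mono (kernel.ι x) k hk with h | h
  · exact Preadditive.mono_of_isZero_kernel _ h
  · exfalso
    apply hx
    rw [← cancel_epi (kernel.ι x)]
    simp

omit i [Mono i] U [Abelian C] [MonoidalPreadditive C] [RigidCategory C] [BraidedCategory C] in
theorem not_isZero_unit [Preadditive C] (k : Type*) [Field k] [Linear k C]
    (hk : Function.Bijective (fun c : k => c • 𝟙 (𝟙_ C))) : ¬ IsZero (𝟙_ C) := by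
  intro h
  have : (fun c : k => c • 𝟙 (𝟙_ C)) 0 = (fun c : k => c • 𝟙 (𝟙_ C)) 1 := h.eq_of_src _ _
  exact zero_ne_one (hk.1 this)

omit i [Mono i] U in
/-- The unit behaves like a domain: if `x ⊗ y = 0` for maps out of the unit then `x = 0` or
`y = 0`. -/
theorem eq_zero_or_eq_zero_of_tensor (k : Type*) [Field k] [Linear k C]
    (hk : Function.Bijective (fun c : k => c • 𝟙 (𝟙_ C))) {M N : C} (x : 𝟙_ C ⟶ M)
    (y : 𝟙_ C ⟶ N) (h : x ⊗ₘ y = 0) : x = 0 ∨ y = 0 := by
  by_contra hc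
  push Not at hc
  have hx := mono_of_ne_zero k hk x hc.1
  have hy := mono_of_ne_zero k hk y hc.2
  have hxy : Mono (x ⊗ₘ y) := by
    rw [MonoidalCategory.tensorHom_def]
    infer_instance
  have hz : IsZero (𝟙_ C ⊗ 𝟙_ C) := IsZero.of_mono_eq_zero _ h
  exact not_isZero_unit k hk (hz.of_iso (λ_ _).symm)

end Abelian

end Pool.Agent.W2helper31.TN
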