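import Pool.Agent.W2helper31.TN.Devissage
import Pool.Agent.W2helper31.TN.UnitSimple
import Mathlib.CategoryTheory.Localization.Bifunctor
import Mathlib.CategoryTheory.Preadditive.Projective.Basic

/-! The bounded derived category of a rigid abelian tensor category and its tensor product. -/

namespace Pool.Agent.W2helper31.TN

open CategoryTheory Limits MonoidalCategory ZeroObject

universe v u

variable (C : Type u) [Category.{v} C] [Abelian C]

/-- The quasi-isomorphisms between bounded complexes. -/
def qis : MorphismProperty (BC C) := fun _ _ f => QuasiIso f.hom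

/-- The bounded derived category: the localization of the category of bounded cochain complexes at
the quasi-isomorphisms. -/
def Db : Type (max u v) := (qis C).Localization

instance Db.category : Category (Db C) := inferInstanceAs (Category (qis C).Localization)

/-- The localization functor. -/
def Lb : BC C ⥤ Db C := (qis C).Q

instance Lb.isLocalization : (Lb C).IsLocalization (qis C) :=
  inferInstanceAs ((qis C).Q.IsLocalization (qis C))

instance : (qis C).ContainsIdentities := ⟨fun K => by
  change QuasiIso (𝟙 K.obj)
  infer_instance⟩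

variable {C}

theorem isIso_Lb_map {K L : BC C} (f : K ⟶ L) (hf : QuasiIso f.hom) : IsIso ((Lb C).map f) :=
  Localization.inverts (Lb C) (qis C) f hf

section Zero

/-- The zero complex. -/
noncomputable def zeroBC (C : Type u) [Category.{v} C] [Abelian C] : BC C where
  obj := 0
  property := ⟨0, 0, fun i _ => (HomologicalComplex.eval C _ i).map_isZero (isZero_zero _)⟩

theorem isZero_zeroBC : IsZero (zeroBC C) := by
  have h0 : IsZero (zeroBC C).obj := isZero_zero _
  rw [IsZero.iff_id_eq_zero]
  apply BC.hom_ext
  exact h0.eq_of_src _ _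

/-- A localization functor preserves zero objects. -/
theorem isZero_Lb_obj {K : BC C} (hK : IsZero K) : IsZero ((Lb C).obj K) := by
  constructor
  · intro Y
    let τ : (Lb C) ⋙ (Functor.const _).obj ((Lb C).obj K) ⟶ (Lb C) ⋙ 𝟭 _ :=
      { app := fun X => (Lb C).map (hK.to_ X)
        naturality := fun X X' g => by
          change 𝟙 _ ≫ (Lb C).map (hK.to_ X') = (Lb C).map (hK.to_ X) ≫ (Lb C).map g
          rw [Category.id_comp, ← Functor.map_comp]
          congr 1
          exact hK.eq_of_src _ _ }
    let σ : (Functor.const _).obj ((Lb C).obj K) ⟶ 𝟭 (Db C) :=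
      Localization.Construction.natTransExtension τ
    have hσ : σ.app ((Lb C).obj K) = 𝟙 _ := by
      have h := congr_app (Localization.Construction.whiskerLeft_natTransExtension τ) K
      refine h.trans ?_
      change (Lb C).map (hK.to_ K) = _
      rw [show hK.to_ K = 𝟙 K from hK.eq_of_src _ _]
      exact (Lb C).map_id K
    refine ⟨⟨⟨σ.app Y⟩, fun f => ?_⟩⟩
    have h := σ.naturality f
    rw [hσ] at h
    change f = σ.app Y
    simpa using h.symm
  · intro Y
    let τ : (Lb C) ⋙ 𝟭 _ ⟶ (Lb C) ⋙ (Functor.const _).obj ((Lb C).obj K) :=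
      { app := fun X => (Lb C).map (hK.from_ X)
        naturality := fun X X' g => by
          change (Lb C).map g ≫ (Lb C).map (hK.from_ X') = (Lb C).map (hK.from_ X) ≫ 𝟙 _
          rw [Category.comp_id, ← Functor.map_comp]
          congr 1
          exact hK.eq_of_tgt _ _ }
    let σ : 𝟭 (Db C) ⟶ (Functor.const _).obj ((Lb C).obj K) :=
      Localization.Construction.natTransExtension τ
    have hσ : σ.app ((Lb C).obj K) = 𝟙 _ := by
      have h := congr_app (Localization.Construction.whiskerLeft_natTransExtension τ) K
      refine h.trans ?_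
      change (Lb C).map (hK.from_ K) = _
      rw [show hK.from_ K = 𝟙 K from hK.eq_of_src _ _]
      exact (Lb C).map_id K
    refine ⟨⟨⟨σ.app Y⟩, fun f => ?_⟩⟩
    have h := σ.naturality f
    rw [hσ] at h
    change f = σ.app Y
    simpa using h

instance : HasZeroObject (Db C) := ⟨⟨_, isZero_Lb_obj isZero_zeroBC⟩⟩

/-- The zero morphisms of the bounded derived category are those factoring through a zero
object. -/
noncomputable instance : HasZeroMorphisms (Db C) := HasZeroObject.zeroMorphismsOfZeroObject

end Zero

section Tensor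

variable [MonoidalCategory C] [MonoidalPreadditive C] [RigidCategory C]

instance biExact_curriedTensor : BiExact (curriedTensor C) where
  left_lim X := preservesFiniteLimits_tensorLeft X
  left_colim X := preservesFiniteColimits_tensorLeft X
  right_lim X := preservesFiniteLimits_tensorRight X
  right_colim X := preservesFiniteColimits_tensorRight X

theorem quasiIso_tensMap_left (K : BC C) {L L' : BC C} (g : L ⟶ L') (hg : QuasiIso g.hom) :
    QuasiIso (tensMap (𝟙 K) g).hom :=
  quasiIso_map_left (curriedTensor C) K.property g.hom hg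

theorem quasiIso_tensMap_right {K K' : BC C} (f : K ⟶ K') (hf : QuasiIso f.hom) (L : BC C) :
    QuasiIso (tensMap f (𝟙 L)).hom :=
  quasiIso_map_right (curriedTensor C) L.property f.hom hf

variable (C) in
/-- The tensor product of bounded complexes, with values in the bounded derived category. -/
noncomputable abbrev tensL : BC C ⥤ BC C ⥤ Db C :=
  tensBC C ⋙ (Functor.whiskeringRight _ _ _).obj (Lb C)

variable (C) in
theorem tensL_inverts : MorphismProperty.IsInvertedBy₂ (qis C) (qis C) (tensL C) := by
  rintro ⟨K, L⟩ ⟨K', L'⟩ ⟨f, g⟩ ⟨hf, hg⟩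
  have h1 : IsIso ((Lb C).map (tensMap f (𝟙 L))) :=
    isIso_Lb_map _ (quasiIso_tensMap_right f hf L)
  have h2 : IsIso ((Lb C).map (tensMap (𝟙 K') g)) :=
    isIso_Lb_map _ (quasiIso_tensMap_left K' g hg)
  change IsIso ((Lb C).map (tensMap f (𝟙 L)) ≫ (Lb C).map (tensMap (𝟙 K') g))
  infer_instance

variable (C) in
/-- The tensor product of the bounded derived category: the bifunctor induced by the tensor
product of bounded complexes. -/
noncomputable def dbTensor : Db C ⥤ Db C ⥤ Db C :=
  Localization.lift₂ (tensL C) (tensL_inverts C) (Lb C) (Lb C)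

variable (C) in
noncomputable instance : Localization.Lifting₂ (Lb C) (Lb C) (qis C) (qis C) (tensL C)
    (dbTensor C) :=
  inferInstanceAs (Localization.Lifting₂ (Lb C) (Lb C) (qis C) (qis C) (tensL C)
    (Localization.lift₂ (tensL C) (tensL_inverts C) (Lb C) (Lb C)))

/-- The tensor product of two objects of the bounded derived category. -/
noncomputable def dbTensorObj (X Y : Db C) : Db C :=
  ((dbTensor C).obj X).obj Y

/-- The tensor product of two morphisms of the bounded derived category. -/
noncomputable def dbTensorHom {X X' Y Y' : Db C} (f : X ⟶ X') (g : Y ⟶ Y') :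
    dbTensorObj X Y ⟶ dbTensorObj X' Y' :=
  ((dbTensor C).map f).app Y ≫ ((dbTensor C).obj X').map g

/-- The tensor product of objects coming from complexes, unfolded. -/
noncomputable def dbIso' (K L : BC C) :
    ((dbTensor C).obj ((Lb C).obj K)).obj ((Lb C).obj L) ≅ (Lb C).obj (tens K L) :=
  ((Localization.Lifting₂.iso (Lb C) (Lb C) (qis C) (qis C) (tensL C) (dbTensor C)).app K).app L

/-- The tensor product of objects coming from complexes. -/
noncomputable def dbIso (K L : BC C) :
    dbTensorObj ((Lb C).obj K) ((Lb C).obj L) ≅ (Lb C).obj (tens K L) :=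
  dbIso' K L

theorem dbIso'_naturality {K K' L L' : BC C} (f : K ⟶ K') (g : L ⟶ L') :
    (((dbTensor C).map ((Lb C).map f)).app ((Lb C).obj L) ≫
      ((dbTensor C).obj ((Lb C).obj K')).map ((Lb C).map g)) ≫ (dbIso' K' L').hom =
      (dbIso' K L).hom ≫ (Lb C).map (tensMap f g) := by
  have h1 := congr_app ((Localization.Lifting₂.iso (Lb C) (Lb C) (qis C) (qis C) (tensL C)
    (dbTensor C)).hom.naturality f) L
  have h2 := ((Localization.Lifting₂.iso (Lb C) (Lb C) (qis C) (qis C) (tensL C)
    (dbTensor C)).hom.app K').naturality g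
  have h3 : tensMap f g = tensMap f (𝟙 L) ≫ tensMap (𝟙 K') g := by
    rw [← tensMap_comp, Category.comp_id, Category.id_comp]
  change ((dbTensor C).map ((Lb C).map f)).app ((Lb C).obj L) ≫ (dbIso' K' L).hom =
    (dbIso' K L).hom ≫ (Lb C).map (tensMap f (𝟙 L)) at h1
  change ((dbTensor C).obj ((Lb C).obj K')).map ((Lb C).map g) ≫ (dbIso' K' L').hom =
    (dbIso' K' L).hom ≫ (Lb C).map (tensMap (𝟙 K') g) at h2
  rw [Category.assoc, h2, reassoc_of% h1, h3, Functor.map_comp]

theorem dbIso_naturality {K K' L L' : BC C} (f : K ⟶ K') (g : L ⟶ L') :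
    dbTensorHom ((Lb C).map f) ((Lb C).map g) ≫ (dbIso K' L').hom =
      (dbIso K L).hom ≫ (Lb C).map (tensMap f g) :=
  dbIso'_naturality f g

theorem dbTensorHom_comp {X X' X'' Y Y' Y'' : Db C} (f : X ⟶ X') (f' : X' ⟶ X'') (g : Y ⟶ Y')
    (g' : Y' ⟶ Y'') :
    dbTensorHom (f ≫ f') (g ≫ g') = dbTensorHom f g ≫ dbTensorHom f' g' := by
  have h : ((dbTensor C).map (f ≫ f')).app Y ≫ ((dbTensor C).obj X'').map (g ≫ g') =
      (((dbTensor C).map f).app Y ≫ ((dbTensor C).obj X').map g) ≫
        (((dbTensor C).map f').app Y' ≫ ((dbTensor C).obj X'').map g') := by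
    simp
  exact h

end Tensor

end Pool.Agent.W2helper31.TN
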