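import Pool.Agent.W2helper31.TN.BiExact

/-! A biexact bifunctor, applied to bounded complexes, preserves quasi-isomorphisms: devissage. -/

namespace Pool.Agent.W2helper31.TN

open CategoryTheory Limits HomologicalComplex ComposableArrows

universe v u

variable {C : Type u} [Category.{v} C] [Abelian C]

open HomologySequence in
theorem quasiIso_tau2 {S₁ S₂ : ShortComplex (CochainComplex C ℤ)} (φ : S₁ ⟶ S₂)
    (hS₁ : S₁.ShortExact) (hS₂ : S₂.ShortExact) (h₁ : QuasiIso φ.τ₁) (h₃ : QuasiIso φ.τ₃) :
    QuasiIso φ.τ₂ := by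
  rw [quasiIso_iff]
  intro i
  rw [quasiIsoAt_iff_isIso_homologyMap]
  have hm : Mono (homologyMap φ.τ₂ i) := by
    have hij : (ComplexShape.up ℤ).Rel (i - 1) i := by simp
    apply Abelian.mono_of_epi_of_mono_of_mono
      ((δ₀Functor ⋙ δ₀Functor).map (mapComposableArrows₅ φ hS₁ hS₂ (i - 1) i hij))
    · exact (composableArrows₅_exact hS₁ (i - 1) i hij).δ₀.δ₀
    · exact (composableArrows₅_exact hS₂ (i - 1) i hij).δ₀.δ₀
    · change Epi (homologyMap φ.τ₃ (i - 1))
      infer_instance
    · change Mono (homologyMap φ.τ₁ i)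
      infer_instance
    · change Mono (homologyMap φ.τ₃ i)
      infer_instance
  have he : Epi (homologyMap φ.τ₂ i) := by
    have hij : (ComplexShape.up ℤ).Rel i (i + 1) := by simp
    apply Abelian.epi_of_epi_of_epi_of_mono
      ((δlastFunctor ⋙ δlastFunctor).map (mapComposableArrows₅ φ hS₁ hS₂ i (i + 1) hij))
    · exact (composableArrows₅_exact hS₁ i (i + 1) hij).δlast.δlast
    · exact (composableArrows₅_exact hS₂ i (i + 1) hij).δlast.δlast
    · change Epi (homologyMap φ.τ₁ i)
      infer_instance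
    · change Epi (homologyMap φ.τ₃ i)
      infer_instance
    · change Mono (homologyMap φ.τ₁ (i + 1))
      infer_instance
  exact isIso_of_mono_of_epi _

variable (F : C ⥤ C ⥤ C) [F.Additive] [∀ X, (F.obj X).Additive]

instance mono_ιMapBifunctor (K L : CochainComplex C ℤ)
    [HasMapBifunctor K L F (ComplexShape.up ℤ)] (p q j : ℤ) (h : p + q = j) :
    Mono (ιMapBifunctor K L F (ComplexShape.up ℤ) p q j h) :=
  inferInstanceAs (Mono (Sigma.ι (termFun F K L j) ⟨(p, q), h⟩))

theorem bounded_single (M : C) (n : ℤ) : bounded C ((single C (ComplexShape.up ℤ) n).obj M) :=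
  ⟨n, n, fun i hi => isZero_single_obj_X _ _ _ _ (by omega)⟩

instance hasMap_single (M : C) (n : ℤ) (L : CochainComplex C ℤ) :
    HasMapBifunctor ((single C (ComplexShape.up ℤ) n).obj M) L F (ComplexShape.up ℤ) :=
  hasMap_of_bounded F _ _ (bounded_single M n)

/-- The comparison map in degree `j` for a complex concentrated in a single degree. -/
noncomputable def singleComp (M : C) (n : ℤ) (L : CochainComplex C ℤ) (j : ℤ) :
    (F.obj M).obj (L.X (j + -n)) ⟶
      (mapBifunctor ((single C (ComplexShape.up ℤ) n).obj M) L F (ComplexShape.up ℤ)).X j :=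
  (F.map (singleObjXSelf (ComplexShape.up ℤ) n M).inv).app _ ≫
    ιMapBifunctor _ L F (ComplexShape.up ℤ) n (j + -n) j (by
      change n + (j + -n) = j
      omega)

instance isIso_singleComp (M : C) (n : ℤ) (L : CochainComplex C ℤ) (j : ℤ) :
    IsIso (singleComp F M n L j) := by
  have hn : n + (j + -n) = j := by omega
  have hm : Mono (singleComp F M n L j) := by
    unfold singleComp
    have := mono_ιMapBifunctor F ((single C (ComplexShape.up ℤ) n).obj M) L n (j + -n) j hn
    infer_instance
  have he : Epi (singleComp F M n L j) := by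
    apply Preadditive.epi_of_cancel_zero
    intro T h hh
    apply mapBifunctor.hom_ext
    intro p q hpq
    have hpq' : p + q = j := hpq
    by_cases hp : p = n
    · subst hp
      obtain rfl : q = j + -p := by omega
      rw [comp_zero]
      unfold singleComp at hh
      rw [Category.assoc] at hh
      have := (cancel_epi ((F.map (singleObjXSelf (ComplexShape.up ℤ) p M).inv).app
        (L.X (j + -p)))).1 (hh.trans comp_zero.symm)
      exact this
    · exact (isZero_F_left F (isZero_single_obj_X _ _ _ _ hp) _).eq_of_src _ _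
  exact isIso_of_mono_of_epi _

theorem singleComp_d (M : C) (n : ℤ) (L : CochainComplex C ℤ) (i j : ℤ) (hij : i + 1 = j) :
    singleComp F M n L i ≫
      (mapBifunctor ((single C (ComplexShape.up ℤ) n).obj M) L F (ComplexShape.up ℤ)).d i j =
    (n.negOnePow • (F.obj M).map (L.d (i + -n) (j + -n))) ≫ singleComp F M n L j := by
  unfold singleComp
  rw [mapBifunctor.d_eq, Category.assoc, Preadditive.comp_add, mapBifunctor.ι_D₁,
    mapBifunctor.ι_D₂]
  have h1 : mapBifunctor.d₁ ((single C (ComplexShape.up ℤ) n).obj M) L F (ComplexShape.up ℤ) n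
      (i + -n) j = 0 := by
    rw [mapBifunctor.d₁_eq' _ _ _ _ (i₁' := n + 1) (by simp)]
    simp
  rw [h1, zero_add, mapBifunctor.d₂_eq (i₂' := j + -n) _ _ _ _ _ (by simp; omega) _ (by
    change n + (j + -n) = j
    omega)]
  simp

/-- The total complex of a single complex and a complex is a shift. -/
noncomputable def singleIso (M : C) (n : ℤ) (L : CochainComplex C ℤ) :
    (CategoryTheory.shiftFunctor (CochainComplex C ℤ) (-n)).obj
      (((F.obj M).mapHomologicalComplex (ComplexShape.up ℤ)).obj L) ≅
      mapBifunctor ((single C (ComplexShape.up ℤ) n).obj M) L F (ComplexShape.up ℤ) :=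
  HomologicalComplex.Hom.isoOfComponents (fun j =>
    @asIso _ _ _ _ (singleComp F M n L j) (isIso_singleComp F M n L j)) (by
    intro i j hij
    refine (singleComp_d F M n L i j hij).trans ?_
    rw [← Int.negOnePow_neg n]
    rfl)

theorem singleIso_naturality (M : C) (n : ℤ) {L L' : CochainComplex C ℤ} (φ : L ⟶ L') :
    (singleIso F M n L).hom ≫ mapBifunctorMap (𝟙 _) φ F (ComplexShape.up ℤ) =
      (CategoryTheory.shiftFunctor (CochainComplex C ℤ) (-n)).map
        (((F.obj M).mapHomologicalComplex (ComplexShape.up ℤ)).map φ) ≫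
        (singleIso F M n L').hom := by
  refine HomologicalComplex.hom_ext _ _ (fun j => ?_)
  change singleComp F M n L j ≫ (mapBifunctorMap (𝟙 _) φ F (ComplexShape.up ℤ)).f j =
    (F.obj M).map (φ.f (j + -n)) ≫ singleComp F M n L' j
  unfold singleComp
  rw [Category.assoc, ι_mapBifunctorMap]
  simp

theorem quasiIso_single_map [BiExact F] (M : C) (n : ℤ) {L L' : CochainComplex C ℤ} (φ : L ⟶ L')
    (hφ : QuasiIso φ) :
    QuasiIso (mapBifunctorMap (𝟙 ((single C (ComplexShape.up ℤ) n).obj M)) φ F
      (ComplexShape.up ℤ)) := by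
  have h1 : QuasiIso (((F.obj M).mapHomologicalComplex (ComplexShape.up ℤ)).map φ) :=
    HomologicalComplex.quasiIso_map_of_preservesHomology _ _
  have h2 : QuasiIso ((singleIso F M n L).hom ≫
      mapBifunctorMap (𝟙 ((single C (ComplexShape.up ℤ) n).obj M)) φ F (ComplexShape.up ℤ)) := by
    rw [singleIso_naturality]
    infer_instance
  exact quasiIso_of_comp_left (singleIso F M n L).hom _

theorem isIso_of_isZero {X Y : C} (f : X ⟶ Y) (hX : IsZero X) (hY : IsZero Y) : IsIso f :=
  ⟨0, hX.eq_of_src _ _, hY.eq_of_src _ _⟩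

theorem isZero_mapBifunctor_X (K L : CochainComplex C ℤ)
    [HasMapBifunctor K L F (ComplexShape.up ℤ)] (j : ℤ)
    (h : ∀ p q : ℤ, p + q = j → IsZero (K.X p) ∨ IsZero (L.X q)) :
    IsZero ((mapBifunctor K L F (ComplexShape.up ℤ)).X j) := by
  rw [IsZero.iff_id_eq_zero]
  apply HomologicalComplex.mapBifunctor.hom_ext
  intro p q hpq
  rcases h p q hpq with h | h
  · exact (isZero_F_left F h _).eq_of_src _ _
  · exact (isZero_F_right F _ h).eq_of_src _ _

theorem bounded_of_support {K : CochainComplex C ℤ} (a : ℤ) (n : ℕ)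
    (hK : ∀ i : ℤ, (i < a ∨ a + n ≤ i) → IsZero (K.X i)) : bounded C K :=
  ⟨a, a + n, fun i hi => hK i (by omega)⟩

theorem quasiIso_map_left_aux [BiExact F] (n : ℕ) : ∀ (K : CochainComplex C ℤ) (a : ℤ)
    (_ : ∀ i : ℤ, (i < a ∨ a + n ≤ i) → IsZero (K.X i)) {L L' : CochainComplex C ℤ}
    [HasMapBifunctor K L F (ComplexShape.up ℤ)] [HasMapBifunctor K L' F (ComplexShape.up ℤ)]
    (φ : L ⟶ L') (_ : QuasiIso φ),
    QuasiIso (mapBifunctorMap (𝟙 K) φ F (ComplexShape.up ℤ)) := by
  induction n with
  | zero =>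
    intro K a hK L L' _ _ φ hφ
    have h0 : ∀ i, IsZero (K.X i) := fun i => hK i (by push_cast; omega)
    have hi : ∀ j, IsIso ((mapBifunctorMap (𝟙 K) φ F (ComplexShape.up ℤ)).f j) := fun j =>
      isIso_of_isZero _ (isZero_mapBifunctor_X F K L j (fun p q _ => Or.inl (h0 p)))
        (isZero_mapBifunctor_X F K L' j (fun p q _ => Or.inl (h0 p)))
    have : IsIso (mapBifunctorMap (𝟙 K) φ F (ComplexShape.up ℤ)) :=
      HomologicalComplex.Hom.isIso_of_components _
    infer_instance
  | succ n ih =>
    intro K a hK L L' _ _ φ hφ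
    push_cast at hK
    let π : K ⟶ (single C (ComplexShape.up ℤ) a).obj (K.X a) :=
      mkHomToSingle (𝟙 _) (fun i hi => by
        have hi' : i + 1 = a := hi
        exact (hK i (by omega)).eq_of_src _ _)
    have hπa : IsIso (π.f a) := by
      rw [mkHomToSingle_f]
      infer_instance
    have hπ : Epi π := by
      apply epi_of_epi_f
      intro i
      by_cases hi : i = a
      · subst hi
        infer_instance
      · have hz := isZero_single_obj_X (ComplexShape.up ℤ) a (K.X a) i hi
        exact ⟨fun g h _ => hz.eq_of_src _ _⟩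
    let K' := kernel π
    let ι : K' ⟶ K := kernel.ι π
    have hιf : ∀ i, Mono (ι.f i) := fun i =>
      inferInstanceAs (Mono ((HomologicalComplex.eval C (ComplexShape.up ℤ) i).map ι))
    have hK' : ∀ i : ℤ, (i < a + 1 ∨ a + 1 + n ≤ i) → IsZero (K'.X i) := by
      intro i hi
      by_cases hia : i = a
      · subst hia
        have h1 : ι.f i ≫ π.f i = 0 := by
          rw [← comp_f, kernel.condition]
          rfl
        have h2 : ι.f i = 0 := by
          rw [← cancel_mono (π.f i), h1, zero_comp]
        exact IsZero.of_mono_eq_zero _ h2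
      · have hz : IsZero (K.X i) := hK i (by omega)
        exact hz.of_mono (ι.f i)
    have hbK' : bounded C K' := bounded_of_support (a + 1) n hK'
    have hses : (ShortComplex.mk ι π (kernel.condition π)).ShortExact :=
      ShortComplex.ShortExact.mk' (ShortComplex.exact_of_f_is_kernel _ (kernelIsKernel π))
        inferInstance hπ
    have i1 : HasMapBifunctor K' L F (ComplexShape.up ℤ) := hasMap_of_bounded F _ _ hbK'
    have i2 : HasMapBifunctor K' L' F (ComplexShape.up ℤ) := hasMap_of_bounded F _ _ hbK'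
    have w1 : mapBifunctorMap ι (𝟙 L) F (ComplexShape.up ℤ) ≫
        mapBifunctorMap π (𝟙 L) F (ComplexShape.up ℤ) = 0 := by
      rw [← mapBifunctorMap_comp, kernel.condition, mapBifunctorMap_zero_left]
    have w2 : mapBifunctorMap ι (𝟙 L') F (ComplexShape.up ℤ) ≫
        mapBifunctorMap π (𝟙 L') F (ComplexShape.up ℤ) = 0 := by
      rw [← mapBifunctorMap_comp, kernel.condition, mapBifunctorMap_zero_left]
    have s1 := shortExact_mapBifunctor F ι π (kernel.condition π) hses hbK' L w1
    have s2 := shortExact_mapBifunctor F ι π (kernel.condition π) hses hbK' L' w2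
    let Φ : ShortComplex.mk _ _ w1 ⟶ ShortComplex.mk _ _ w2 :=
      { τ₁ := mapBifunctorMap (𝟙 K') φ F (ComplexShape.up ℤ)
        τ₂ := mapBifunctorMap (𝟙 K) φ F (ComplexShape.up ℤ)
        τ₃ := mapBifunctorMap (𝟙 _) φ F (ComplexShape.up ℤ)
        comm₁₂ := by
          dsimp
          rw [← mapBifunctorMap_comp, ← mapBifunctorMap_comp]
          simp
        comm₂₃ := by
          dsimp
          rw [← mapBifunctorMap_comp, ← mapBifunctorMap_comp]
          simp }
    have q1 : QuasiIso Φ.τ₁ := ih K' (a + 1) hK' φ hφ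
    have q3 : QuasiIso Φ.τ₃ := quasiIso_single_map F (K.X a) a φ hφ
    exact quasiIso_tau2 Φ s1 s2 q1 q3

/-- A biexact bifunctor preserves quasi-isomorphisms in the second variable when the first one is
bounded. -/
theorem quasiIso_map_left [BiExact F] {K : CochainComplex C ℤ} (hK : bounded C K)
    {L L' : CochainComplex C ℤ}
    [HasMapBifunctor K L F (ComplexShape.up ℤ)] [HasMapBifunctor K L' F (ComplexShape.up ℤ)]
    (φ : L ⟶ L') (hφ : QuasiIso φ) :
    QuasiIso (mapBifunctorMap (𝟙 K) φ F (ComplexShape.up ℤ)) := by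
  obtain ⟨a, b, h⟩ := hK
  refine quasiIso_map_left_aux F (b - a + 1).toNat K a (fun i hi => h i ?_) φ hφ
  omega

/-- A biexact bifunctor preserves quasi-isomorphisms in the first variable when the second one is
bounded. -/
theorem quasiIso_map_right [BiExact F] {L : CochainComplex C ℤ} (hL : bounded C L)
    {K K' : CochainComplex C ℤ}
    [HasMapBifunctor K L F (ComplexShape.up ℤ)] [HasMapBifunctor K' L F (ComplexShape.up ℤ)]
    (φ : K ⟶ K') (hφ : QuasiIso φ) :
    QuasiIso (mapBifunctorMap φ (𝟙 L) F (ComplexShape.up ℤ)) := by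
  have a1 : F.flip.Additive := ⟨fun {X Y f g} => by
    ext Z
    simp [(F.obj Z).map_add]⟩
  have a2 : ∀ X, (F.flip.obj X).Additive := fun X => ⟨fun {Y Z f g} => by
    simp [F.map_add]⟩
  have h1 := quasiIso_map_left F.flip hL φ hφ
  have h2 := mapBifunctorFlipIso_hom_naturality (F := F) (c := ComplexShape.up ℤ) φ (𝟙 L)
  have h3 : QuasiIso ((mapBifunctorFlipIso K L F (ComplexShape.up ℤ)).hom ≫
      mapBifunctorMap φ (𝟙 L) F (ComplexShape.up ℤ)) := by
    rw [← h2]
    infer_instance
  exact quasiIso_of_comp_left (mapBifunctorFlipIso K L F (ComplexShape.up ℤ)).hom _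

end Pool.Agent.W2helper31.TN
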