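import Pool.Agent.W2helper31.TN.Db
import Mathlib.Algebra.Homology.HomotopyCofiber
import Mathlib.Algebra.Homology.HomotopyCategory.HomComplexSingle
import Mathlib.Algebra.Homology.Embedding.CochainComplex

/-! Morphisms in the bounded derived category out of objects in degree zero. -/

namespace Pool.Agent.W2helper31.TN

open CategoryTheory Limits MonoidalCategory ZeroObject HomologicalComplex

universe v u

variable {C : Type u} [Category.{v} C] [Abelian C]

section Induction

/-- Induction principle for morphisms of the bounded derived category. -/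
theorem Db_induction (P : ∀ (K K' : BC C) (_ : (Lb C).obj K ⟶ (Lb C).obj K'), Prop)
    (h1 : ∀ (K K' : BC C) (f : K ⟶ K'), P K K' ((Lb C).map f))
    (h2 : ∀ (K K' : BC C) (s : K ⟶ K') (_ : QuasiIso s.hom)
      (v : (Lb C).obj K' ⟶ (Lb C).obj K) (_ : (Lb C).map s ≫ v = 𝟙 _)
      (_ : v ≫ (Lb C).map s = 𝟙 _), P K' K v)
    (h3 : ∀ (K K' K'' : BC C) (u : (Lb C).obj K ⟶ (Lb C).obj K')
      (v : (Lb C).obj K' ⟶ (Lb C).obj K''), P K K' u → P K' K'' v → P K K'' (u ≫ v))
    (K K' : BC C) (u : (Lb C).obj K ⟶ (Lb C).obj K') : P K K' u := by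
  let Q : MorphismProperty (qis C).Localization := fun X Y u => P X.as.obj Y.as.obj u
  have hQ : Q.IsStableUnderComposition := ⟨fun {X Y Z} f g hf hg => h3 _ _ _ f g hf hg⟩
  have htop : Q = ⊤ := by
    apply Localization.Construction.morphismProperty_eq_top Q
    · intro X Y f
      exact h1 _ _ f
    · intro X Y w hw
      exact h2 _ _ w hw _ (Localization.Construction.wIso w hw).hom_inv_id
        (Localization.Construction.wIso w hw).inv_hom_id
  have : Q u := by
    rw [htop]
    trivial
  exact this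

end Induction

section Homotopy

/-- The cylinder of a bounded complex. -/
noncomputable def cyl (K : BC C) : BC C where
  obj := K.obj.cylinder
  property := by
    obtain ⟨a, b, h⟩ := K.property
    refine ⟨a - 1, b, fun i hi => ?_⟩
    apply homotopyCofiber.isZero_X (biprod.lift (𝟙 K.obj) (-𝟙 K.obj))
    · have hz : IsZero (K.obj.X i) := h i (by omega)
      have hz' : IsZero (K.obj.X i ⊞ K.obj.X i) := by
        rw [biprod_isZero_iff]
        exact ⟨hz, hz⟩
      exact hz'.of_iso (HomologicalComplex.biprodXIso K.obj K.obj i)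
    · intro j hij
      have hij' : i + 1 = j := hij
      exact h j (by omega)

theorem Lb_map_eq_of_homotopy {K L : BC C} (φ₀ φ₁ : K ⟶ L) (h : Homotopy φ₀.hom φ₁.hom) :
    (Lb C).map φ₀ = (Lb C).map φ₁ := by
  let i0 : K ⟶ cyl K := BC.homMk (cylinder.ι₀ K.obj)
  let i1 : K ⟶ cyl K := BC.homMk (cylinder.ι₁ K.obj)
  let p : cyl K ⟶ K := BC.homMk (cylinder.π K.obj)
  let d : cyl K ⟶ L := BC.homMk (cylinder.desc φ₀.hom φ₁.hom h)
  have hp : QuasiIso p.hom :=
    (cylinder.homotopyEquiv K.obj (fun j => ⟨j - 1, by simp⟩)).quasiIso_hom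
  have hpi : IsIso ((Lb C).map p) := isIso_Lb_map p hp
  have e0 : i0 ≫ p = 𝟙 K := by
    apply BC.hom_ext
    exact cylinder.ι₀_π K.obj
  have e1 : i1 ≫ p = 𝟙 K := by
    apply BC.hom_ext
    exact cylinder.ι₁_π K.obj
  have d0 : i0 ≫ d = φ₀ := by
    apply BC.hom_ext
    exact cylinder.ι₀_desc _ _ h
  have d1 : i1 ≫ d = φ₁ := by
    apply BC.hom_ext
    exact cylinder.ι₁_desc _ _ h
  have hi : (Lb C).map i0 = (Lb C).map i1 := by
    rw [← cancel_mono ((Lb C).map p), ← Functor.map_comp, ← Functor.map_comp, e0, e1]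
  rw [← d0, ← d1, Functor.map_comp, Functor.map_comp, hi]

end Homotopy

section Cyc

open CochainComplex.HomComplex in
/-- A homotopy between two maps out of a single complex. -/
noncomputable def homotopyFromSingle {M : C} {K : CochainComplex C ℤ}
    (φ φ' : (CochainComplex.singleFunctor C 0).obj M ⟶ K) (h : M ⟶ K.X (-1))
    (hh : (singleObjXSelf (ComplexShape.up ℤ) 0 M).inv ≫ φ.f 0 =
      h ≫ K.d (-1) 0 + (singleObjXSelf (ComplexShape.up ℤ) 0 M).inv ≫ φ'.f 0) :
    Homotopy φ φ' :=
  (Cochain.equivHomotopy _ _).symm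
    ⟨Cochain.fromSingleMk (p := 0) (q := -1) h (by omega), by
      rw [Cochain.δ_fromSingleMk h (by omega) 0 0 (by omega)]
      apply (Cochain.fromSingleEquiv (p := 0) (q := 0) (n := 0) (by omega)).injective
      rw [map_add, Cochain.fromSingleEquiv_fromSingleMk]
      simpa [Cochain.fromSingleEquiv] using hh⟩

/-- The bounded complex with `M` in degree zero. -/
noncomputable abbrev sg (M : C) : BC C where
  obj := (single C (ComplexShape.up ℤ) 0).obj M
  property := bounded_single M 0

/-- The map from `M` in degree zero given by a map to the cycles. -/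
noncomputable def fromCyc {M : C} (K : BC C) (c : M ⟶ K.obj.cycles 0) : sg M ⟶ K :=
  BC.homMk (mkHomFromSingle (c ≫ K.obj.iCycles 0) (fun k _ => by
    rw [Category.assoc, iCycles_d, comp_zero]))

theorem fromCyc_f {M : C} (K : BC C) (c : M ⟶ K.obj.cycles 0) :
    (fromCyc K c).hom.f 0 = (singleObjXSelf (ComplexShape.up ℤ) 0 M).hom ≫ c ≫ K.obj.iCycles 0 :=
  mkHomFromSingle_f (c ≫ K.obj.iCycles 0) (fun k _ => by
    rw [Category.assoc, iCycles_d, comp_zero])

theorem sg_hom_ext {M : C} {K : BC C} {φ φ' : sg M ⟶ K} (h : φ.hom.f 0 = φ'.hom.f 0) : φ = φ' := by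
  apply BC.hom_ext
  refine HomologicalComplex.hom_ext _ _ (fun j => ?_)
  by_cases hj : j = 0
  · subst hj
    exact h
  · exact (isZero_single_obj_X (ComplexShape.up ℤ) 0 M j hj).eq_of_src _ _

theorem exists_fromCyc {M : C} {K : BC C} (φ : sg M ⟶ K) : ∃ c, φ = fromCyc K c := by
  refine ⟨K.obj.liftCycles ((singleObjXSelf (ComplexShape.up ℤ) 0 M).inv ≫ φ.hom.f 0) 1
    (by simp) ?_, ?_⟩
  · rw [Category.assoc, φ.hom.comm, single_obj_d, zero_comp, comp_zero]
  · apply sg_hom_ext
    rw [fromCyc_f, liftCycles_i, Iso.hom_inv_id_assoc]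

theorem fromCyc_comp {M : C} {K K' : BC C} (c : M ⟶ K.obj.cycles 0) (s : K ⟶ K') :
    fromCyc K c ≫ s = fromCyc K' (c ≫ cyclesMap s.hom 0) := by
  apply sg_hom_ext
  rw [BC.comp_hom, comp_f, fromCyc_f, fromCyc_f]
  rw [Category.assoc, Category.assoc, Category.assoc, cyclesMap_i]

/-- Two maps out of `M` in degree zero whose cycle classes differ by a boundary of a map
`M ⟶ K.X (-1)` have the same image in the bounded derived category. -/
theorem Lb_map_fromCyc_eq {M : C} {K : BC C} (c c' : M ⟶ K.obj.cycles 0)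
    (h : M ⟶ K.obj.X (-1)) (hc : c - c' = h ≫ K.obj.toCycles (-1) 0) :
    (Lb C).map (fromCyc K c) = (Lb C).map (fromCyc K c') := by
  apply Lb_map_eq_of_homotopy
  have h1 : c ≫ K.obj.iCycles 0 = h ≫ K.obj.d (-1) 0 + c' ≫ K.obj.iCycles 0 := by
    have := congrArg (· ≫ K.obj.iCycles 0) hc
    simp only [Preadditive.sub_comp, Category.assoc, toCycles_i] at this
    rw [← this]
    abel
  refine homotopyFromSingle (fromCyc K c).hom (fromCyc K c').hom h ?_
  rw [fromCyc_f, fromCyc_f, Iso.inv_hom_id_assoc, Iso.inv_hom_id_assoc]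
  exact h1

end Cyc

section Projective

theorem exact_toCycles (K : CochainComplex C ℤ) :
    (ShortComplex.mk (K.toCycles (-1) 0) (K.homologyπ 0) (by simp)).Exact :=
  ShortComplex.exact_of_g_is_cokernel _ (K.homologyIsCokernel (-1) 0 (by simp))

/-- A cycle class on a projective object which vanishes in homology is a boundary. -/
theorem exists_boundary {P : C} [Projective P] (K : CochainComplex C ℤ) (c : P ⟶ K.cycles 0)
    (hc : c ≫ K.homologyπ 0 = 0) : ∃ h : P ⟶ K.X (-1), c = h ≫ K.toCycles (-1) 0 :=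
  ⟨(exact_toCycles K).liftFromProjective c hc,
    ((exact_toCycles K).liftFromProjective_comp c hc).symm⟩

/-- Every morphism in the bounded derived category out of a projective object is given by a map of
complexes. -/
theorem exists_map_of_projective (P : C) [Projective P] (K : BC C)
    (u : (Lb C).obj (sg P) ⟶ (Lb C).obj K) : ∃ φ : sg P ⟶ K, u = (Lb C).map φ := by
  have key := Db_induction (C := C)
    (fun K K' u => ∀ φ : sg P ⟶ K, ∃ φ' : sg P ⟶ K', (Lb C).map φ ≫ u = (Lb C).map φ')
    (fun K K' f φ => ⟨φ ≫ f, by rw [Functor.map_comp]⟩)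
    (fun K K' s hs v h1 h2 φ => by
      obtain ⟨c, rfl⟩ := exists_fromCyc φ
      have he : Epi (K.obj.homologyπ 0 ≫ homologyMap s.hom 0) := inferInstance
      let c0 : P ⟶ K.obj.cycles 0 := Projective.factorThru (c ≫ K'.obj.homologyπ 0)
        (K.obj.homologyπ 0 ≫ homologyMap s.hom 0)
      have hc0 : c0 ≫ K.obj.homologyπ 0 ≫ homologyMap s.hom 0 = c ≫ K'.obj.homologyπ 0 :=
        Projective.factorThru_comp _ _
      rw [homologyπ_naturality] at hc0
      obtain ⟨h, hh⟩ := exists_boundary K'.obj (c - c0 ≫ cyclesMap s.hom 0) (by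
        rw [Preadditive.sub_comp, Category.assoc, hc0, sub_self])
      refine ⟨fromCyc K c0, ?_⟩
      rw [Lb_map_fromCyc_eq c (c0 ≫ cyclesMap s.hom 0) h hh, ← fromCyc_comp, Functor.map_comp,
        Category.assoc, h1, Category.comp_id])
    (fun K K' K'' u v hu hv φ => by
      obtain ⟨φ', h'⟩ := hu φ
      obtain ⟨φ'', h''⟩ := hv φ'
      exact ⟨φ'', by rw [← Category.assoc, h', h'']⟩)
    (sg P) K u (𝟙 _)
  obtain ⟨φ, hφ⟩ := key
  refine ⟨φ, ?_⟩
  rw [← hφ, CategoryTheory.Functor.map_id, Category.id_comp]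

end Projective

section Trunc

theorem epi_πTruncGE_f (K : CochainComplex C ℤ) (i : ℤ) :
    Epi ((CochainComplex.πTruncGE K 0).f i) :=
  inferInstanceAs (Epi ((HomologicalComplex.πTruncGE K (ComplexShape.embeddingUpIntGE 0)).f i))

/-- The truncation in nonnegative degrees. -/
noncomputable abbrev tr (K : BC C) : BC C where
  obj := CochainComplex.truncGE K.obj 0
  property := by
    obtain ⟨a, b, h⟩ := K.property
    refine ⟨a, b, fun i hi => ?_⟩
    have he : Epi ((CochainComplex.πTruncGE K.obj 0).f i) := epi_πTruncGE_f K.obj i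
    exact (h i hi).of_epi ((CochainComplex.πTruncGE K.obj 0).f i)

/-- The projection to the truncation. -/
noncomputable abbrev pr (K : BC C) : K ⟶ tr K :=
  BC.homMk (CochainComplex.πTruncGE K.obj 0)

/-- Functoriality of the truncation. -/
noncomputable abbrev trMap {K K' : BC C} (f : K ⟶ K') : tr K ⟶ tr K' :=
  BC.homMk (CochainComplex.truncGEMap f.hom 0)

theorem pr_trMap {K K' : BC C} (f : K ⟶ K') : pr K ≫ trMap f = f ≫ pr K' := by
  apply BC.hom_ext
  exact CochainComplex.πTruncGE_naturality f.hom 0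

theorem quasiIso_trMap {K K' : BC C} (f : K ⟶ K') (hf : QuasiIso f.hom) :
    QuasiIso (trMap f).hom := by
  change QuasiIso (CochainComplex.truncGEMap f.hom 0)
  rw [CochainComplex.quasiIso_truncGEMap_iff]
  intro i _
  infer_instance

theorem isZero_tr_X (K : BC C) (i : ℤ) (hi : i < 0) : IsZero ((tr K).obj.X i) :=
  CochainComplex.isZero_of_isStrictlyGE (CochainComplex.truncGE K.obj 0) 0 i hi

theorem isIso_homologyπ_tr (K : BC C) : IsIso ((tr K).obj.homologyπ 0) :=
  (tr K).obj.isIso_homologyπ (-1) 0 (by simp) ((isZero_tr_X K (-1) (by omega)).eq_of_src _ _)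

theorem isIso_cyclesMap_trMap {K K' : BC C} (f : K ⟶ K') (hf : QuasiIso f.hom) :
    IsIso (cyclesMap (trMap f).hom 0) := by
  have h1 := isIso_homologyπ_tr K
  have h2 := isIso_homologyπ_tr K'
  have h3 : QuasiIso (trMap f).hom := quasiIso_trMap f hf
  have h4 : IsIso (homologyMap (trMap f).hom 0) := inferInstance
  have h5 : IsIso (cyclesMap (trMap f).hom 0 ≫ (tr K').obj.homologyπ 0) := by
    rw [← homologyπ_naturality]
    infer_instance
  exact IsIso.of_isIso_comp_right _ ((tr K').obj.homologyπ 0)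

/-- Every morphism in the bounded derived category from an object in degree zero becomes a map of
complexes after truncating the target in nonnegative degrees. -/
theorem exists_map_tr (M : C) (K : BC C) (u : (Lb C).obj (sg M) ⟶ (Lb C).obj K) :
    ∃ φ : sg M ⟶ tr K, u ≫ (Lb C).map (pr K) = (Lb C).map φ := by
  have key := Db_induction (C := C)
    (fun K K' u => ∀ φ : sg M ⟶ tr K, ∃ φ' : sg M ⟶ tr K', ∀ w : (Lb C).obj (sg M) ⟶ (Lb C).obj K,
      w ≫ (Lb C).map (pr K) = (Lb C).map φ → w ≫ u ≫ (Lb C).map (pr K') = (Lb C).map φ')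
    (fun K K' f φ => ⟨φ ≫ trMap f, fun w hw => by
      rw [← Functor.map_comp, ← pr_trMap, Functor.map_comp, reassoc_of% hw, Functor.map_comp]⟩)
    (fun K K' s hs v h1 h2 φ => by
      obtain ⟨c, rfl⟩ := exists_fromCyc φ
      have hi := isIso_cyclesMap_trMap s hs
      have hL : IsIso ((Lb C).map (trMap s)) := isIso_Lb_map _ (quasiIso_trMap s hs)
      refine ⟨fromCyc (tr K) (c ≫ inv (cyclesMap (trMap s).hom 0)), fun w hw => ?_⟩
      rw [← cancel_mono ((Lb C).map (trMap s)), Category.assoc, Category.assoc,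
        ← Functor.map_comp, ← Functor.map_comp, pr_trMap, fromCyc_comp, Functor.map_comp,
        reassoc_of% h2, Category.assoc, IsIso.inv_hom_id, Category.comp_id, hw])
    (fun K K' K'' u v hu hv φ => by
      obtain ⟨φ', h'⟩ := hu φ
      obtain ⟨φ'', h''⟩ := hv φ'
      refine ⟨φ'', fun w hw => ?_⟩
      have := h'' (w ≫ u) (by rw [Category.assoc]; exact h' w hw)
      simpa using this)
    (sg M) K u (pr (sg M))
  obtain ⟨φ, hφ⟩ := key
  refine ⟨φ, ?_⟩
  have := hφ (𝟙 _) (Category.id_comp _)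
  rwa [Category.id_comp] at this

end Trunc

end Pool.Agent.W2helper31.TN
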