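import Pool.Agent.W2helper31.TN.Facts
import Mathlib.Algebra.Homology.SingleHomology

/-! Tensor-vanishing maps out of the unit in the bounded derived category. -/

namespace Pool.Agent.W2helper31.TN

open CategoryTheory Limits MonoidalCategory ZeroObject HomologicalComplex

universe v u

variable {C : Type u} [Category.{v} C] [Abelian C]

section Homology

variable (C) in
/-- Homology in degree zero, on bounded complexes. -/
noncomputable def H0 : BC C ⥤ C where
  obj K := K.obj.homology 0
  map f := homologyMap f.hom 0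
  map_id _ := homologyMap_id _ _
  map_comp _ _ := homologyMap_comp _ _ _

variable (C) in
theorem H0_inverts : (qis C).IsInvertedBy (H0 C) := by
  intro K L f hf
  have : QuasiIso f.hom := hf
  change IsIso (homologyMap f.hom 0)
  infer_instance

theorem homologyMap_eq_of_Lb_map_eq {K K' : BC C} (a b : K ⟶ K')
    (h : (Lb C).map a = (Lb C).map b) : homologyMap a.hom 0 = homologyMap b.hom 0 := by
  have h1 := Functor.congr_hom (Localization.Construction.fac (H0 C) (H0_inverts C)).symm a
  have h2 := Functor.congr_hom (Localization.Construction.fac (H0 C) (H0_inverts C)).symm b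
  have h3 : (qis C).Q.map a = (qis C).Q.map b := h
  change (H0 C).map a = (H0 C).map b
  rw [h1, h2, Functor.comp_map, Functor.comp_map, h3]

theorem Lb_map_zero (K K' : BC C) : (Lb C).map (0 : K ⟶ K') = 0 := by
  have h1 : (0 : K ⟶ K') = (0 : K ⟶ zeroBC C) ≫ (0 : zeroBC C ⟶ K') := by simp
  rw [h1, Functor.map_comp, (isZero_Lb_obj (isZero_zeroBC (C := C))).eq_of_tgt
    ((Lb C).map (0 : K ⟶ zeroBC C)) 0, zero_comp]

theorem homologyMap_eq_zero_of_Lb_map_eq_zero {K K' : BC C} (a : K ⟶ K')
    (h : (Lb C).map a = 0) : homologyMap a.hom 0 = 0 := by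
  rw [homologyMap_eq_of_Lb_map_eq a 0 (h.trans (Lb_map_zero K K').symm)]
  exact homologyMap_zero _ _ _

theorem isZero_of_isZero_Lb_obj_sg {M : C} (h : IsZero ((Lb C).obj (sg M))) : IsZero M := by
  have h1 : homologyMap (𝟙 (sg M) : sg M ⟶ sg M).hom 0 = 0 :=
    homologyMap_eq_zero_of_Lb_map_eq_zero _ (h.eq_of_src _ _)
  have h2 : IsZero ((sg M).obj.homology 0) := by
    rw [IsZero.iff_id_eq_zero, ← h1]
    exact (homologyMap_id _ _).symm
  exact h2.of_iso (singleObjHomologySelfIso (ComplexShape.up ℤ) 0 M).symm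

/-- A map of complexes which vanishes on `H^0`, from a complex zero in degree `1` to a complex zero
in degree `-1`, vanishes in degree zero. -/
theorem f_zero_of_homologyMap_zero {S T : CochainComplex C ℤ} (t : S ⟶ T) (hS : IsZero (S.X 1))
    (hT : IsZero (T.X (-1))) (h : homologyMap t 0 = 0) : t.f 0 = 0 := by
  have h1 : IsIso (T.homologyπ 0) := T.isIso_homologyπ (-1) 0 (by simp) (hT.eq_of_src _ _)
  have h2 : IsIso (S.iCycles 0) := S.isIso_iCycles 0 1 (by simp) (hS.eq_of_tgt _ _)
  have h3 : cyclesMap t 0 = 0 := by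
    rw [← cancel_mono (T.homologyπ 0), ← homologyπ_naturality, h, comp_zero, zero_comp]
  rw [← cancel_epi (S.iCycles 0), ← cyclesMap_i, h3, zero_comp, comp_zero]

/-- A map out of a projective object which vanishes on `H^0` is zero in the bounded derived
category. -/
theorem Lb_map_eq_zero_of_projective {P : C} [Projective P] {K : BC C} (φ : sg P ⟶ K)
    (h : homologyMap φ.hom 0 = 0) : (Lb C).map φ = 0 := by
  obtain ⟨c, rfl⟩ := exists_fromCyc φ
  let z : P ⟶ (sg P).obj.cycles 0 :=
    (sg P).obj.liftCycles (singleObjXSelf (ComplexShape.up ℤ) 0 P).inv 1 (by simp) (by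
      rw [single_obj_d, comp_zero])
  have hz : z ≫ cyclesMap (fromCyc K c).hom 0 = c := by
    rw [← cancel_mono (K.obj.iCycles 0), Category.assoc, cyclesMap_i, liftCycles_i_assoc,
      fromCyc_f, Iso.inv_hom_id_assoc]
  have hc : c ≫ K.obj.homologyπ 0 = 0 := by
    rw [← hz, Category.assoc, ← homologyπ_naturality, h, comp_zero, comp_zero]
  obtain ⟨b, hb⟩ := exists_boundary K.obj c hc
  rw [Lb_map_fromCyc_eq c 0 b (by rw [sub_zero]; exact hb)]
  have h0 : fromCyc K (0 : P ⟶ K.obj.cycles 0) = 0 := by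
    apply sg_hom_ext
    rw [fromCyc_f, zero_comp, comp_zero]
    rfl
  rw [h0, Lb_map_zero]

end Homology

section Tensor

variable [MonoidalCategory C] [MonoidalPreadditive C] [RigidCategory C]

/-- Tensoring with an object in degree zero preserves isomorphisms on homology. -/
theorem quasiIsoAt_tensMap_sg {K K' : BC C} (f : K ⟶ K') (P : C) (hf : QuasiIsoAt f.hom 0) :
    QuasiIsoAt (tensMap f (𝟙 (sg P))).hom 0 := by
  have a1 : (curriedTensor C).flip.Additive := inferInstance
  have a2 : ∀ X, ((curriedTensor C).flip.obj X).Additive := fun X =>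
    inferInstanceAs (tensorRight X).Additive
  have i1 : HasMapBifunctor K.obj (sg P).obj (curriedTensor C) (ComplexShape.up ℤ) :=
    hasTensor_obj K (sg P)
  have i2 : HasMapBifunctor K'.obj (sg P).obj (curriedTensor C) (ComplexShape.up ℤ) :=
    hasTensor_obj K' (sg P)
  let G := ((curriedTensor C).flip.obj P).mapHomologicalComplex (ComplexShape.up ℤ)
  have h0 : QuasiIsoAt (G.map f.hom) 0 := inferInstance
  have h1 : QuasiIsoAt ((CategoryTheory.shiftFunctor (CochainComplex C ℤ) (-0 : ℤ)).map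
      (G.map f.hom)) 0 := by
    rw [CochainComplex.quasiIsoAt_shift_iff _ _ 0 0 (by simp)]
    exact h0
  have h2 : QuasiIsoAt (mapBifunctorMap (𝟙 (sg P).obj) f.hom (curriedTensor C).flip
      (ComplexShape.up ℤ)) 0 := by
    have h3 := singleIso_naturality (curriedTensor C).flip P 0 f.hom
    have h4 : QuasiIsoAt ((singleIso (curriedTensor C).flip P 0 K.obj).hom ≫
        mapBifunctorMap (𝟙 (sg P).obj) f.hom (curriedTensor C).flip (ComplexShape.up ℤ)) 0 := by
      rw [h3]
      infer_instance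
    exact quasiIsoAt_of_comp_left (singleIso (curriedTensor C).flip P 0 K.obj).hom _ 0
  have h5 := mapBifunctorFlipIso_hom_naturality (F := curriedTensor C) (c := ComplexShape.up ℤ)
    f.hom (𝟙 (sg P).obj)
  have h6 : QuasiIsoAt ((mapBifunctorFlipIso K.obj (sg P).obj (curriedTensor C)
      (ComplexShape.up ℤ)).hom ≫ mapBifunctorMap f.hom (𝟙 (sg P).obj) (curriedTensor C)
      (ComplexShape.up ℤ)) 0 := by
    rw [← h5]
    infer_instance
  have h7 : QuasiIsoAt (mapBifunctorMap f.hom (𝟙 (sg P).obj) (curriedTensor C)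
      (ComplexShape.up ℤ)) 0 :=
    quasiIsoAt_of_comp_left (mapBifunctorFlipIso K.obj (sg P).obj (curriedTensor C)
      (ComplexShape.up ℤ)).hom _ 0
  exact h7

/-- The unit isomorphism for a projective object in degree zero. -/
noncomputable def unitIso (P : C) : tens (sg (𝟙_ C)) (sg P) ≅ sg P :=
  BC.isoMk (HomologicalComplex.leftUnitor (sg P).obj)

omit [RigidCategory C] in
theorem tensMap_zero_left {K K' L L' : BC C} (g : L ⟶ L') : tensMap (0 : K ⟶ K') g = 0 := by
  apply BC.hom_ext
  exact mapBifunctorMap_zero_left (curriedTensor C) g.hom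

/-- Two maps out of the unit, into complexes in nonnegative degrees, whose tensor product vanishes
in the bounded derived category: one of them is zero. -/
theorem unit_maps [BraidedCategory C] (k : Type*) [Field k] [Linear k C]
    (hk : Function.Bijective (fun c : k => c • 𝟙 (𝟙_ C)))
    {K L : BC C} (φ : sg (𝟙_ C) ⟶ tr K) (ψ : sg (𝟙_ C) ⟶ tr L)
    (h : (Lb C).map (tensMap φ ψ) = 0) : φ = 0 ∨ ψ = 0 := by
  have h1 := homologyMap_eq_zero_of_Lb_map_eq_zero _ h
  have hS : IsZero ((tens (sg (𝟙_ C)) (sg (𝟙_ C))).obj.X 1) := by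
    refine isZero_tensorObj_X _ _ _ (fun p q hpq => ?_)
    by_cases hp : p = 0
    · right
      exact isZero_single_obj_X _ _ _ _ (by omega)
    · left
      exact isZero_single_obj_X _ _ _ _ hp
  have hT : IsZero ((tens (tr K) (tr L)).obj.X (-1)) := by
    refine isZero_tensorObj_X _ _ _ (fun p q hpq => ?_)
    by_cases hp : p < 0
    · left
      exact isZero_tr_X K p hp
    · right
      exact isZero_tr_X L q (by omega)
  have h2 := f_zero_of_homologyMap_zero _ hS hT h1
  have h3 : φ.hom.f 0 ⊗ₘ ψ.hom.f 0 = 0 := by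
    have hm : Mono (ιTensorObj (tr K).obj (tr L).obj 0 0 0 (add_zero 0)) :=
      mono_ιMapBifunctor (curriedTensor C) (tr K).obj (tr L).obj 0 0 0 (add_zero 0)
    rw [← cancel_mono (ιTensorObj (tr K).obj (tr L).obj 0 0 0 (add_zero 0)), zero_comp]
    refine (ι_tensorHom φ.hom ψ.hom 0 0 0 (add_zero 0)).symm.trans ?_
    refine (congrArg (fun t => ιTensorObj (sg (𝟙_ C)).obj (sg (𝟙_ C)).obj 0 0 0 (add_zero 0) ≫ t)
      h2).trans ?_
    exact comp_zero
  let s := (singleObjXSelf (ComplexShape.up ℤ) 0 (𝟙_ C)).inv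
  have h4 : (s ≫ φ.hom.f 0) ⊗ₘ (s ≫ ψ.hom.f 0) = 0 := by
    rw [← MonoidalCategory.tensorHom_comp_tensorHom, h3, comp_zero]
  rcases eq_zero_or_eq_zero_of_tensor k hk _ _ h4 with h5 | h5
  · left
    apply sg_hom_ext
    rw [← cancel_epi s, h5]
    exact comp_zero.symm
  · right
    apply sg_hom_ext
    rw [← cancel_epi s, h5]
    exact comp_zero.symm

/-- A map out of the unit which vanishes after truncation to nonnegative degrees is killed by
tensoring with a projective object. -/
theorem tensor_projective_eq_zero {P : C} [Projective P] {K : BC C}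
    (f : (Lb C).obj (sg (𝟙_ C)) ⟶ (Lb C).obj K) (hf : f ≫ (Lb C).map (pr K) = 0) :
    dbTensorHom f (𝟙 ((Lb C).obj (sg P))) = 0 := by
  let e := (dbIso (sg (𝟙_ C)) (sg P)) ≪≫ (Lb C).mapIso (unitIso P)
  obtain ⟨φ, hφ⟩ := exists_map_of_projective P (tens K (sg P))
    (e.inv ≫ dbTensorHom f (𝟙 ((Lb C).obj (sg P))) ≫ (dbIso K (sg P)).hom)
  have h1 : dbTensorHom f (𝟙 ((Lb C).obj (sg P))) ≫
      dbTensorHom ((Lb C).map (pr K)) ((Lb C).map (𝟙 (sg P))) = 0 := by
    rw [← dbTensorHom_comp, hf, Category.id_comp, ← Lb_map_zero]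
    rw [← cancel_mono (dbIso (tr K) (sg P)).hom, dbIso_naturality, tensMap_zero_left, Lb_map_zero,
      comp_zero, zero_comp]
  have h2 : (Lb C).map (φ ≫ tensMap (pr K) (𝟙 (sg P))) = 0 := by
    rw [Functor.map_comp, ← hφ, Category.assoc, Category.assoc, ← dbIso_naturality,
      reassoc_of% h1, zero_comp, comp_zero]
  have h3 := homologyMap_eq_zero_of_Lb_map_eq_zero _ h2
  rw [BC.comp_hom, homologyMap_comp] at h3
  have h4 : QuasiIsoAt (tensMap (pr K) (𝟙 (sg P))).hom 0 :=
    quasiIsoAt_tensMap_sg (pr K) P (CochainComplex.quasiIsoAt_πTruncGE K.obj 0 0 le_rfl)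
  have h5 : homologyMap φ.hom 0 = 0 := by
    rw [← cancel_mono (homologyMap (tensMap (pr K) (𝟙 (sg P))).hom 0), h3, zero_comp]
  have h6 := Lb_map_eq_zero_of_projective φ h5
  rw [h6] at hφ
  rw [← cancel_epi e.inv, ← cancel_mono (dbIso K (sg P)).hom, Category.assoc, hφ]
  simp

end Tensor

end Pool.Agent.W2helper31.TN
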